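import Mathlib

/-!
The vector of the monomials of a given degree.
-/

namespace Pool.Agent.Lib.MP_44a246_ntJ

/-- The vector of all the monomials of degree `m` in the coordinates of `x`. -/
def veronese {σ L : Type*} [CommMonoid L] (m : ℕ) (x : σ → L) : Sym σ m → L :=
  fun s => (s.1.map x).prod

end Pool.Agent.Lib.MP_44a246_ntJ
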