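import Mathlib
import Pool.Agent.Lib.MP_44a246_nt.Main2
import Pool.Agent.Lib.MP_44a246_ntJ.Defs

/-!
Abbreviations for the statement with slopes.
-/

namespace Pool.Agent.Lib.MP_44a246_ntJ

open Pool.Agent.Lib.MP_44a246_nt Module

/-- The coefficients of the forms `F i` of degrees `d i`, `M` in number, generate over `k` a field
of transcendence degree at least `M - c`. -/
def NearlyGeneric {K ι σ : Type*} [Field K] (k : Type*) [Field k] [Algebra k K] (c : ℕ)
    (d : ι → ℕ) (F : ι → MvPolynomial σ K) : Prop :=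
  (Nat.card (Σ i, {I : σ →₀ ℕ // I.degree = d i}) : Cardinal) ≤
    Algebra.trdeg k (IntermediateField.adjoin k
      (Set.range fun θ : Σ i, {I : σ →₀ ℕ // I.degree = d i} => (F θ.1).coeff θ.2.1)) + c

/-- All subspaces `Q` which contain the vector of the monomials of degree `m` at `x` satisfy
`m h(x) ≤ h(Q) + (dim Q - 1) ν`. -/
def SlopeLE (κ : Type*) {L : Type*} [Field κ] [Field L] [Algebra κ L] {n : ℕ} (m : ℕ)
    (x : Fin (n + 1) → L) (ν : ℝ) : Prop :=
  ∀ Q : Submodule L (Sym (Fin (n + 1)) m → L), veronese m x ∈ Q →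
    (m * height κ x : ℝ) ≤ subHeight κ Q + (finrank L Q - 1) * ν

/-- Some subspace `Q` of dimension at least two which contains the vector of the monomials of
degree `m` at `x` has small height: `T h(Q) < (T m - (dim Q - 1)) h(x)`. -/
def SmallSpace (κ : Type*) {L : Type*} [Field κ] [Field L] [Algebra κ L] {n : ℕ} (m : ℕ)
    (x : Fin (n + 1) → L) (T : ℝ) : Prop :=
  ∃ Q : Submodule L (Sym (Fin (n + 1)) m → L), veronese m x ∈ Q ∧ 2 ≤ finrank L Q ∧
    T * subHeight κ Q < (T * m - (finrank L Q - 1)) * height κ x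

end Pool.Agent.Lib.MP_44a246_ntJ
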