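import Mathlib
import Pool.Agent.Lib.MP_44a246_nt.Jac2

/-!
Factorisation of the minors of a family in a space of vectors with two blocks of coordinates.
-/

namespace Pool.Agent.Lib.MP_44a246_ntJ

open Pool.Agent.Lib.MP_e52354_nt Pool.Agent.Lib.MP_44a246_nt

section LinAlg

variable {M : Type*} [Field M]

/-- Factorisation of the determinants: the minors of a family `C, v`, where `C` is a part of a
basis of `V`, are products of a constant, of a minor of the projection of `V` to the first block of
coordinates and of the determinant of the components of `v` along the rest of the basis. -/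
theorem exists_factor3 {κ ρ α ι : Type*} [Fintype κ] [DecidableEq κ] [Fintype ρ] [DecidableEq ρ]
    [Fintype ι] [Finite α] (V : Submodule M (α ⊕ ι → M))
    (b0 : Module.Basis (κ ⊕ ρ) M V) (X : Submodule M (α → M))
    (hX : V.map (LinearMap.funLeft M M (Sum.inl : α → α ⊕ ι)) = X)
    (N : ι → Prop) (hN : ∀ j, N j → ∀ v ∈ V, v (Sum.inr j) = 0)
    (bas : Module.Basis (Fin (Module.finrank M X)) M X) :
    ∃ (c : ℕ) (β : Fin c → ι) (ε : κ ⊕ ρ ≃ Fin (Module.finrank M X) ⊕ Fin c),
      c + Nat.card {j // N j} ≤ Fintype.card ι ∧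
      ∃ J : M, J ≠ 0 ∧ ∀ (A : Fin (Module.finrank M X) → α) (v : ρ → V),
        (Matrix.of fun r z => (Sum.elim (fun k => (b0 (Sum.inl k) : α ⊕ ι → M))
          (fun i => (v i : α ⊕ ι → M)) : κ ⊕ ρ → α ⊕ ι → M) r
          (Sum.elim (fun j => Sum.inl (A j)) (fun j => Sum.inr (β j)) (ε z) : α ⊕ ι)).det =
        J * (Matrix.of fun i j => (bas i : α → M) (A j)).det *
          (Matrix.of fun i j => b0.repr (v j) (Sum.inr i)).det := by
  classical
  -- the second basis
  let W2 : Submodule M (ι → M) :=
    V.comap (LinearMap.pi fun z => Sum.elim (fun _ => 0) (fun j => LinearMap.proj j) z)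
  have hW2 : ∀ u : ι → M, u ∈ W2 ↔ (Sum.elim (fun _ => 0) u : α ⊕ ι → M) ∈ V := by
    intro u
    have : (LinearMap.pi fun z : α ⊕ ι =>
        Sum.elim (fun _ => (0 : (ι → M) →ₗ[M] M)) (fun j => LinearMap.proj j) z) u =
        (Sum.elim (fun _ => 0) u : α ⊕ ι → M) := by
      funext z
      cases z <;> simp
    rw [← this]
    exact Iff.rfl
  obtain ⟨ω, β, hβ⟩ := exists_minor W2
  have hlift : ∀ i, ∃ u ∈ V, ∀ k, u (Sum.inl k) = (bas i : α → M) k := by
    intro i
    have h1 : (bas i : α → M) ∈ V.map (LinearMap.funLeft M M (Sum.inl : α → α ⊕ ι)) := by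
      rw [hX]; exact (bas i).2
    obtain ⟨u, hu, hu'⟩ := h1
    exact ⟨u, hu, fun k => congrFun hu' k⟩
  choose u huV hu using hlift
  let ω' : Fin (Module.finrank M W2) → α ⊕ ι → M := fun i => Sum.elim (fun _ => 0) (ω i : ι → M)
  have hω' : ∀ i, ω' i ∈ V := fun i => (hW2 _).mp (ω i).2
  have hli1 : LinearIndependent M (fun ρ : Fin (Module.finrank M X) ⊕ Fin (Module.finrank M W2) =>
      (⟨Sum.elim u ω' ρ, by rcases ρ with k | i; exacts [huV k, hω' i]⟩ : V)) := by
    rw [Fintype.linearIndependent_iff]
    intro c hc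
    have h1 : ∑ k, c (Sum.inl k) • u k + ∑ i, c (Sum.inr i) • ω' i = 0 := by
      have := congrArg V.subtype hc
      simpa [Fintype.sum_sum_type] using this
    have h2 : (∑ k, c (Sum.inl k) • bas k : X) = 0 := by
      apply Subtype.ext
      funext k
      have h3 := congrFun h1 (Sum.inl k)
      simp only [Pi.add_apply, Finset.sum_apply, Pi.smul_apply, hu, ω', Sum.elim_inl,
        smul_zero, Finset.sum_const_zero, add_zero] at h3
      simpa [Finset.sum_apply] using h3
    have h3 := Fintype.linearIndependent_iff.mp bas.linearIndependent _ h2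
    have h4 : (∑ k, c (Sum.inr k) • ω k : W2) = 0 := by
      apply Subtype.ext
      funext j
      have h5 := congrFun h1 (Sum.inr j)
      simp only [h3, zero_smul, Finset.sum_const_zero, zero_add, Finset.sum_apply,
        Pi.smul_apply, ω', Sum.elim_inr] at h5
      simpa [Finset.sum_apply] using h5
    have h5 := Fintype.linearIndependent_iff.mp ω.linearIndependent _ h4
    rintro (k | j)
    · exact h3 k
    · exact h5 j
  have hsp1 : ⊤ ≤ Submodule.span M (Set.range
      (fun ρ : Fin (Module.finrank M X) ⊕ Fin (Module.finrank M W2) =>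
      (⟨Sum.elim u ω' ρ, by rcases ρ with k | i; exacts [huV k, hω' i]⟩ : V))) := by
    rintro ⟨v, hv⟩ -
    have h1 : (fun k => v (Sum.inl k)) ∈ X := by
      rw [← hX]; exact ⟨v, hv, rfl⟩
    have h2 : (fun j => v (Sum.inr j) - ∑ i, bas.repr ⟨_, h1⟩ i * u i (Sum.inr j)) ∈ W2 := by
      rw [hW2]
      have h3 : (Sum.elim (fun _ => 0) (fun j => v (Sum.inr j) -
          ∑ i, bas.repr ⟨_, h1⟩ i * u i (Sum.inr j)) : α ⊕ ι → M) =
          v - ∑ i, bas.repr ⟨_, h1⟩ i • u i := by
        funext z
        rcases z with k | j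
        · simp only [Sum.elim_inl, Pi.sub_apply, Finset.sum_apply, Pi.smul_apply, smul_eq_mul, hu]
          have h4 := congrFun (congrArg Subtype.val (bas.sum_repr ⟨_, h1⟩)) k
          simp only [Submodule.coe_sum, Submodule.coe_smul, Finset.sum_apply, Pi.smul_apply,
            smul_eq_mul] at h4
          rw [h4, sub_self]
        · simp only [Sum.elim_inr, Pi.sub_apply, Finset.sum_apply, Pi.smul_apply, smul_eq_mul]
      rw [h3]
      exact Submodule.sub_mem _ hv (Submodule.sum_mem _ fun i _ =>
        Submodule.smul_mem _ _ (huV i))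
    rw [Submodule.mem_span_range_iff_exists_fun]
    refine ⟨Sum.elim (fun i => bas.repr ⟨_, h1⟩ i) (fun i => ω.repr ⟨_, h2⟩ i), ?_⟩
    apply Subtype.ext
    rw [Fintype.sum_sum_type]
    simp only [Sum.elim_inl, Sum.elim_inr, Submodule.coe_add, Submodule.coe_sum,
      Submodule.coe_smul]
    funext z
    rcases z with k | j
    · simp only [Pi.add_apply, Finset.sum_apply, Pi.smul_apply, smul_eq_mul, hu, ω', Sum.elim_inl,
        mul_zero, Finset.sum_const_zero, add_zero]
      have h4 := congrFun (congrArg Subtype.val (bas.sum_repr ⟨_, h1⟩)) k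
      simpa only [Submodule.coe_sum, Submodule.coe_smul, Finset.sum_apply, Pi.smul_apply,
        smul_eq_mul] using h4
    · simp only [Pi.add_apply, Finset.sum_apply, Pi.smul_apply, smul_eq_mul, ω', Sum.elim_inr]
      have h4 := congrFun (congrArg Subtype.val (ω.sum_repr ⟨_, h2⟩)) j
      simp only [Submodule.coe_sum, Submodule.coe_smul, Finset.sum_apply, Pi.smul_apply,
        smul_eq_mul] at h4
      rw [h4]
      ring
  let b1 : Module.Basis (Fin (Module.finrank M X) ⊕ Fin (Module.finrank M W2)) M V :=
    Module.Basis.mk hli1 hsp1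
  have hb1 : ∀ ρ, ((b1 ρ : V) : α ⊕ ι → M) = Sum.elim u ω' ρ := by
    intro ρ
    simp only [b1, Module.Basis.mk_apply]
  let ε : κ ⊕ ρ ≃ Fin (Module.finrank M X) ⊕ Fin (Module.finrank M W2) := b0.indexEquiv b1
  let S : Matrix (κ ⊕ ρ) (κ ⊕ ρ) M := Matrix.of fun r z => b1.repr (b0 r) (ε z)
  have hS : S.det ≠ 0 := by
    have h1 := Module.Basis.isUnit_det (b1.reindex ε.symm) b0
    rw [Module.Basis.det_apply] at h1
    have h2 : (b1.reindex ε.symm).toMatrix b0 = S.transpose := by
      ext i j
      simp [Module.Basis.toMatrix_apply, S]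
    rw [h2, Matrix.det_transpose] at h1
    exact h1.ne_zero
  refine ⟨Module.finrank M W2, β, ε, ?_, S.det * (Matrix.of fun i j => (ω i : ι → M) (β j)).det,
    mul_ne_zero hS hβ, ?_⟩
  · -- the inequality
    have h1 : Module.finrank M W2 ≤ Nat.card {i // ¬ N i} := by
      let q : W2 →ₗ[M] ({i // ¬ N i} → M) :=
        (LinearMap.funLeft M M (Subtype.val : {i // ¬ N i} → ι)).comp W2.subtype
      have hq : Function.Injective q := by
        rw [← LinearMap.ker_eq_bot, eq_bot_iff]
        rintro ⟨u, hu⟩ hqu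
        rw [Submodule.mem_bot]
        apply Subtype.ext
        funext j
        by_cases hj : N j
        · have := hN j hj _ ((hW2 u).mp hu)
          simpa using this
        · exact congrFun (LinearMap.mem_ker.mp hqu) ⟨j, hj⟩
      have h2 := LinearMap.finrank_le_finrank_of_injective hq
      rw [Module.finrank_fintype_fun_eq_card] at h2
      rw [Nat.card_eq_fintype_card]
      exact h2
    have h2 : Nat.card {i // N i} + Nat.card {i // ¬ N i} = Fintype.card ι := by
      rw [Nat.card_eq_fintype_card, Nat.card_eq_fintype_card, Fintype.card_subtype_compl]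
      have := Fintype.card_subtype_le (fun i => N i)
      omega
    omega
  · intro A v
    set col : κ ⊕ ρ → α ⊕ ι := fun z =>
      Sum.elim (fun j => Sum.inl (A j)) (fun j => Sum.inr (β j)) (ε z) with hcol
    have hdec : ∀ (i : ρ) (z : α ⊕ ι), (v i : α ⊕ ι → M) z =
        ∑ k, b0.repr (v i) (Sum.inl k) * (b0 (Sum.inl k) : α ⊕ ι → M) z +
          ∑ j, b0.repr (v i) (Sum.inr j) * (b0 (Sum.inr j) : α ⊕ ι → M) z := by
      intro i z
      have h1 := congrArg (fun y : V => (y : α ⊕ ι → M) z) (b0.sum_repr (v i))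
      simp only [Fintype.sum_sum_type, Submodule.coe_add, Submodule.coe_sum, Submodule.coe_smul,
        Pi.add_apply, Finset.sum_apply, Pi.smul_apply, smul_eq_mul] at h1
      exact h1.symm
    have h2 : (Matrix.of fun r z => (Sum.elim (fun k => (b0 (Sum.inl k) : α ⊕ ι → M))
          (fun i => (v i : α ⊕ ι → M)) : κ ⊕ ρ → α ⊕ ι → M) r (col z)) =
        Matrix.fromBlocks 1 0 (Matrix.of fun i k => b0.repr (v i) (Sum.inl k))
          (Matrix.of fun i j => b0.repr (v i) (Sum.inr j)) *
          (Matrix.of fun r z => (b0 r : α ⊕ ι → M) (col z)) := by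
      ext b b'
      rw [Matrix.mul_apply, Fintype.sum_sum_type]
      cases b with
      | inl k =>
        simp only [Matrix.fromBlocks_apply₁₁, Matrix.fromBlocks_apply₁₂, Matrix.zero_apply,
          zero_mul, Finset.sum_const_zero, add_zero, Matrix.one_apply, ite_mul, one_mul,
          Matrix.of_apply, Sum.elim_inl]
        rw [Finset.sum_ite_eq]
        simp
      | inr i =>
        simp only [Matrix.fromBlocks_apply₂₁, Matrix.fromBlocks_apply₂₂, Matrix.of_apply,
          Sum.elim_inr]
        exact hdec i _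
    have h3 : (Matrix.of fun r z => (b0 r : α ⊕ ι → M) (col z)) =
        S * (Matrix.fromBlocks (Matrix.of fun i j => (bas i : α → M) (A j))
          (Matrix.of fun i j => u i (Sum.inr (β j))) 0
          (Matrix.of fun i j => (ω i : ι → M) (β j))).submatrix ε ε := by
      ext r z
      rw [Matrix.mul_apply, Matrix.of_apply]
      conv_lhs => rw [← b1.sum_repr (b0 r)]
      rw [← Equiv.sum_comp ε]
      simp only [Submodule.coe_sum, Submodule.coe_smul, Finset.sum_apply, Pi.smul_apply,
        smul_eq_mul, hb1]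
      refine Finset.sum_congr rfl fun y _ => ?_
      simp only [S, Matrix.of_apply, Matrix.submatrix_apply, hcol]
      congr 1
      generalize ε y = y'
      generalize ε z = z'
      rcases y' with i | i <;> rcases z' with j | j <;> simp [hu, ω']
    have h4 : (Matrix.of fun i j => b0.repr (v j) (Sum.inr i)).det =
        (Matrix.of fun i j => b0.repr (v i) (Sum.inr j)).det := by
      rw [← Matrix.det_transpose]
      rfl
    rw [h4, h2, h3, Matrix.det_mul, Matrix.det_mul, Matrix.det_fromBlocks_zero₁₂, Matrix.det_one,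
      one_mul, Matrix.det_submatrix_equiv_self, Matrix.det_fromBlocks_zero₂₁]
    ring

end LinAlg

end Pool.Agent.Lib.MP_44a246_ntJ
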