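import Mathlib
import Pool.Agent.Lib.MP_44a246_ntJ.J1

/-!
The space of the rows of the functionals which vanish on the tangent space over the field of the
coefficients.
-/

namespace Pool.Agent.Lib.MP_44a246_ntJ

open Pool.Agent.Lib.MP_e52354_nt Pool.Agent.Lib.MP_44a246_nt

/-- the coefficients of forms of degrees `d i` in `n + 1` variables -/
abbrev Row (n : ℕ) {ι : Type*} (d : ι → ℕ) : Type _ :=
  Σ i : ι, {I : Fin (n + 1) →₀ ℕ // I ∈ expo (Fin (n + 1)) (d i)}

section Rows

variable {n : ℕ} {ι : Type*} {M : Type*} [Field M] {𝓑 : Type*}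

open Classical in
/-- the evaluation at `x` of the form with the index `i` -/
noncomputable def xiB (d : ι → ℕ) (x : Fin (n + 1) → M) (i : ι) : Row n d → M :=
  fun θ => if θ.1 = i then mon x θ.2.1 else 0

variable [Fintype ι] [DecidableEq ι] {d : ι → ℕ} {a : ι → Expo n → M}
  {D : ι → Expo n → Derivation ℤ M M} {E : 𝓑 → Derivation ℤ M M}

theorem exists_U (hD : DualFam d a D)
    (hE : ∀ b i, ∀ I ∈ expo (Fin (n + 1)) (d i), E b (a i I) = 0)
    {x : Fin (n + 1) → M} {l : Fin (n + 1)} (hl : x l ≠ 0)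
    (bas : Module.Basis (Fin (Module.finrank M (spanX2 d D E x))) M (spanX2 d D E x)) :
    ∃ (r' u : ℕ) (b : Fin r' → 𝓑) (rows : Fin u → Row n d → M)
      (col : (Fin (Module.finrank M (spanX2 d D E x)) → Fin (n + 1)) →
        Option (Fin r' ⊕ Fin u) → Fin (n + 1) ⊕ ι),
      r' + 1 = Module.finrank M (spanX1 E x) ∧
      LinearIndependent M rows ∧
      (∀ i, xiB d x i ∈ Submodule.span M (Set.range rows)) ∧
      u + Module.finrank M (spanX1 E x) + Nat.card {i // yv d a x i = 0} ≤
        Module.finrank M (spanX2 d D E x) + Fintype.card ι ∧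
      (∀ A, Nat.card {c // (col A c).isLeft} = Module.finrank M (spanX2 d D E x)) ∧
      ∃ J : M, J ≠ 0 ∧ ∀ (A : Fin (Module.finrank M (spanX2 d D E x)) → Fin (n + 1))
        (τ : Fin u → Row n d),
        (bigM d a (col A) x (Sum.elim (fun k => E (b k))
          (fun j => D (τ j).1 (τ j).2.1))).det =
          J * (Matrix.of fun i j => (bas i : Fin (n + 1) → M) (A j)).det *
            (Matrix.of fun i j => rows i (τ j)).det := by
  classical
  set V := spanV2 d a D E x with hV
  set P := vecP d a x with hP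
  have hPV : P ∈ V := Submodule.subset_span (Set.mem_insert _ _)
  have hP0 : P ≠ 0 := by
    intro h0
    apply hl
    have := congrFun h0 (Sum.inl l)
    simpa [hP, vecP] using this
  have hDV : ∀ i, ∀ I ∈ expo (Fin (n + 1)) (d i), vecE d a x (D i I) ∈ V := fun i I hI =>
    Submodule.subset_span (Set.mem_insert_of_mem _ (Or.inl ⟨i, I, hI, rfl⟩))
  have hEV : ∀ b, vecE d a x (E b) ∈ V := fun b =>
    Submodule.subset_span (Set.mem_insert_of_mem _ (Or.inr ⟨b, rfl⟩))
  have hPK : P ∈ LinearMap.ker (funcL d a x) := by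
    rw [LinearMap.mem_ker]
    funext j
    exact func_vecP x j
  have hEK : ∀ b, vecE d a x (E b) ∈ LinearMap.ker (funcL d a x) := by
    intro b
    rw [LinearMap.mem_ker]
    funext j
    exact func_vecE (hE b j) x
  -- the first part of the basis
  obtain ⟨r', Z1, hZ1, hli1, hsp1⟩ := exists_ext_family (M := M) (fun _ : Unit => P)
    (LinearIndependent.of_subsingleton () hP0) {w | ∃ b, w = vecE d a x (E b)}
  choose b hb using hZ1
  -- the second part
  obtain ⟨u, Z2, hZ2, hli2, hsp2⟩ := exists_ext_family (M := M) _ hli1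
    {w | ∃ θ : Row n d, w = vecE d a x (D θ.1 θ.2.1)}
  choose θ hθ using hZ2
  set f1 : Unit ⊕ Fin r' → Fin (n + 1) ⊕ ι → M := Sum.elim (fun _ : Unit => P) Z1 with hf1
  have hf1K : ∀ k, f1 k ∈ V ⊓ LinearMap.ker (funcL d a x) := by
    rintro (_ | k)
    · exact ⟨hPV, hPK⟩
    · rw [hf1, Sum.elim_inr, hb k]
      exact ⟨hEV _, hEK _⟩
  have hspV : Submodule.span M (Set.range (Sum.elim f1 Z2)) = V := by
    rw [hsp2]
    apply le_antisymm
    · rw [Submodule.span_le]
      rintro _ (⟨k, rfl⟩ | ⟨t, rfl⟩)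
      · exact (hf1K k).1
      · exact hDV _ _ t.2.2
    · rw [hV, spanV2, Submodule.span_le]
      have h1 : Submodule.span M (Set.range f1) ≤ Submodule.span M (Set.range f1 ∪
          {w | ∃ θ : Row n d, w = vecE d a x (D θ.1 θ.2.1)}) :=
        Submodule.span_mono Set.subset_union_left
      rintro _ (rfl | (⟨i, I, hI, rfl⟩ | ⟨c, rfl⟩))
      · exact h1 (Submodule.subset_span ⟨Sum.inl (), rfl⟩)
      · exact Submodule.subset_span (Or.inr ⟨⟨i, I, hI⟩, rfl⟩)
      · apply h1
        rw [hsp1]
        exact Submodule.subset_span (Or.inr ⟨c, rfl⟩)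
  let b0 : Module.Basis ((Unit ⊕ Fin r') ⊕ Fin u) M V :=
    (Module.Basis.span hli2).map (LinearEquiv.ofEq _ _ hspV)
  have hb0 : ∀ i, (b0 i : Fin (n + 1) ⊕ ι → M) = Sum.elim f1 Z2 i := fun i => by
    simp [b0, Module.Basis.span_apply]
  let vD : Row n d → V := fun t => ⟨vecE d a x (D t.1 t.2.1), hDV _ _ t.2.2⟩
  let rows : Fin u → Row n d → M := fun i t => b0.repr (vD t) (Sum.inr i)
  have hrow : ∀ i j, rows i (θ j) = if i = j then 1 else 0 := by
    intro i j
    have h1 : vD (θ j) = b0 (Sum.inr j) := by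
      apply Subtype.ext
      rw [hb0]
      exact (hθ j).symm
    show b0.repr (vD (θ j)) (Sum.inr i) = _
    rw [h1, Module.Basis.repr_self, Finsupp.single_apply]
    simp only [Sum.inr.injEq, eq_comm]
  have hrows : LinearIndependent M rows := by
    rw [Fintype.linearIndependent_iff]
    intro c hc j
    have h1 := congrFun hc (θ j)
    simpa [Finset.sum_apply, hrow] using h1
  have hdec : ∀ t : Row n d, vecE d a x (D t.1 t.2.1) =
      ∑ k, b0.repr (vD t) (Sum.inl k) • f1 k + ∑ j, rows j t • Z2 j := by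
    intro t
    have h1 := congrArg (fun y : V => (y : Fin (n + 1) ⊕ ι → M)) (b0.sum_repr (vD t))
    simp only [Fintype.sum_sum_type (α₁ := Unit ⊕ Fin r'), Submodule.coe_add, Submodule.coe_sum,
      Submodule.coe_smul, hb0, Sum.elim_inl, Sum.elim_inr] at h1
    exact h1.symm
  have hxi : ∀ i, xiB d x i ∈ Submodule.span M (Set.range rows) := by
    intro i
    have h1 : xiB d x i = ∑ j, (- funcL d a x (Z2 j) i) • rows j := by
      funext t
      have h2 := func_vecD (a := a) hD x t.1 t.2.2 i
      rw [vecD_eq_vecE, ← funcL_apply, hdec t, map_add, map_sum, map_sum] at h2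
      simp only [map_smul, Pi.add_apply, Finset.sum_apply, Pi.smul_apply, smul_eq_mul] at h2
      have h3 : ∀ k, funcL d a x (f1 k) = 0 := fun k => LinearMap.mem_ker.mp (hf1K k).2
      simp only [h3, Pi.zero_apply, mul_zero, Finset.sum_const_zero, zero_add] at h2
      simp only [Finset.sum_apply, Pi.smul_apply, smul_eq_mul, xiB]
      have h4 : ∑ j, -funcL d a x (Z2 j) i * rows j t =
          - ∑ j, rows j t * funcL d a x (Z2 j) i := by
        rw [← Finset.sum_neg_distrib]
        exact Finset.sum_congr rfl fun j _ => by ring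
      rw [h4, h2]
      split_ifs <;> simp
    rw [h1]
    exact Submodule.sum_mem _ fun j _ => Submodule.smul_mem _ _ (Submodule.subset_span ⟨j, rfl⟩)
  obtain ⟨c, β, ε, hcard, J, hJ, hfac⟩ := exists_factor3 V b0
    (spanX2 d D E x) (map_spanV2 x) (fun j => yv d a x j = 0)
    (fun j hj v hv => spanV2_inr hj hv) bas
  let eqv : Option (Fin r' ⊕ Fin u) ≃ (Unit ⊕ Fin r') ⊕ Fin u :=
    { toFun := fun o => Option.elim o (Sum.inl (Sum.inl ()))
        (Sum.elim (fun k => Sum.inl (Sum.inr k)) (fun k => Sum.inr k))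
      invFun := Sum.elim (Sum.elim (fun _ => none) (fun k => some (Sum.inl k)))
        (fun k => some (Sum.inr k))
      left_inv := by rintro (_ | k | k) <;> rfl
      right_inv := by rintro ((_ | k) | k) <;> rfl }
  have hX1 : r' + 1 = Module.finrank M (spanX1 E x) := by
    set K1 := Submodule.span M (Set.range f1) with hK1
    have h1 := finrank_span_eq_card hli1
    rw [Fintype.card_sum, Fintype.card_unit, Fintype.card_fin] at h1
    let p : K1 →ₗ[M] (Fin (n + 1) → M) :=
      (LinearMap.funLeft M M (Sum.inl : Fin (n + 1) → Fin (n + 1) ⊕ ι)).comp K1.subtype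
    have h2 : Function.Injective p := by
      rw [← LinearMap.ker_eq_bot, eq_bot_iff]
      rintro ⟨w, hw⟩ hpw
      rw [Submodule.mem_bot]
      apply Subtype.ext
      have h3 : K1 ≤ V ⊓ LinearMap.ker (funcL d a x) := by
        rw [hK1, Submodule.span_le]
        rintro _ ⟨k, rfl⟩
        exact hf1K k
      exact inl_injective (h3 hw).1 (LinearMap.mem_ker.mp (h3 hw).2)
        (fun k => congrFun (LinearMap.mem_ker.mp hpw) k)
    have h3 : LinearMap.range p = spanX1 E x := by
      have h4 : LinearMap.range p =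
          K1.map (LinearMap.funLeft M M (Sum.inl : Fin (n + 1) → Fin (n + 1) ⊕ ι)) := by
        simp only [p, LinearMap.range_comp, Submodule.range_subtype]
      rw [h4, hsp1, Submodule.map_span, spanX1]
      congr 1
      ext w
      simp only [Set.mem_image, Set.mem_insert_iff, Set.mem_union, Set.mem_ofPred_eq,
        Set.mem_range]
      constructor
      · rintro ⟨v, ⟨_, rfl⟩ | ⟨b, rfl⟩, rfl⟩
        · left
          funext k
          simp [LinearMap.funLeft_apply, hP, vecP]
        · right
          refine ⟨b, ?_⟩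
          funext k
          simp [LinearMap.funLeft_apply, vecE]
      · rintro (rfl | ⟨b, rfl⟩)
        · refine ⟨_, Or.inl ⟨(), rfl⟩, ?_⟩
          funext k
          simp [LinearMap.funLeft_apply, hP, vecP]
        · refine ⟨_, Or.inr ⟨b, rfl⟩, ?_⟩
          funext k
          simp [LinearMap.funLeft_apply, vecE]
    have h4 := LinearMap.finrank_range_of_inj h2
    rw [h3, h1] at h4
    rw [h4, add_comm]
  refine ⟨r', u, b, rows, fun A z => Sum.elim (fun j => Sum.inl (A j)) (fun j => Sum.inr (β j))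
    (ε (eqv z)), hX1, hrows, hxi, ?_, ?_, J, hJ, ?_⟩
  · have h1 := Fintype.card_congr ε
    rw [Fintype.card_sum, Fintype.card_sum, Fintype.card_sum,
      Fintype.card_unit, Fintype.card_fin, Fintype.card_fin, Fintype.card_fin,
      Fintype.card_fin] at h1
    rw [← hX1]
    omega
  · intro A
    refine (Nat.card_congr ?_).trans (Nat.card_fin (Module.finrank M (spanX2 d D E x)))
    refine ((eqv.trans ε).subtypeEquiv (q := fun z => z.isLeft = true) (fun z => ?_)).trans
      { toFun := fun z => z.1.getLeft z.2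
        invFun := fun i => ⟨Sum.inl i, rfl⟩
        left_inv := ?_
        right_inv := fun i => rfl }
    · show Sum.isLeft (Sum.elim (fun j => Sum.inl (A j)) (fun j => Sum.inr (β j))
          (ε (eqv z)) : Fin (n + 1) ⊕ ι) = true ↔ (ε (eqv z)).isLeft = true
      rcases ε (eqv z) with i | i <;> simp
    · rintro ⟨z | z, h⟩
      · rfl
      · simp at h
  · intro A τ
    have h0 := hfac A (fun j => vD (τ j))
    rw [← h0]
    have h1 : bigM d a (fun z => Sum.elim (fun j => Sum.inl (A j)) (fun j => Sum.inr (β j))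
        (ε (eqv z))) x (Sum.elim (fun k => E (b k)) (fun j => D (τ j).1 (τ j).2.1)) =
        (Matrix.of fun r z => (Sum.elim (fun k => (b0 (Sum.inl k) : Fin (n + 1) ⊕ ι → M))
          (fun j => (vD (τ j) : Fin (n + 1) ⊕ ι → M)) :
          (Unit ⊕ Fin r') ⊕ Fin u → Fin (n + 1) ⊕ ι → M) r
          (Sum.elim (fun j => Sum.inl (A j)) (fun j => Sum.inr (β j)) (ε z) :
            Fin (n + 1) ⊕ ι)).submatrix eqv eqv := by
      ext ρ z
      rw [Matrix.submatrix_apply, Matrix.of_apply, bigM, Matrix.of_apply]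
      rcases ρ with _ | k | k
      · show P _ = (b0 (Sum.inl (Sum.inl ())) : Fin (n + 1) ⊕ ι → M) _
        rw [hb0]
        rfl
      · show vecE d a x (E (b k)) _ = (b0 (Sum.inl (Sum.inr k)) : Fin (n + 1) ⊕ ι → M) _
        rw [hb0, ← hb k]
        rfl
      · rfl
    rw [h1, Matrix.det_submatrix_equiv_self]

end Rows

end Pool.Agent.Lib.MP_44a246_ntJ
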