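import Mathlib
import Pool.Agent.Lib.MP_44a246_nt.PlaceIneq2
import Pool.Agent.Lib.MP_44a246_ntJ.J2
import Pool.Agent.Lib.MP_44a246_ntS.SA1b

/-!
The logarithmic inequality at one place for the space of rows.
-/

namespace Pool.Agent.Lib.MP_44a246_ntJ

open Pool.Agent.Lib.MP_e52354_nt Pool.Agent.Lib.MP_44a246_nt Pool.Agent.Lib.MP_44a246_ntS WithZero

section PlaceIneq3

variable {R K₀ K L : Type*} [CommRing R] [IsDomain R] [IsPrincipalIdealRing R]
    [Field K₀] [Algebra R K₀] [IsFractionRing R K₀]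
    [Field K] [Algebra R K] [Algebra K₀ K] [IsScalarTower R K₀ K] [FiniteDimensional K₀ K]
    [Algebra.IsSeparable K₀ K]
    [Field L] [Algebra R L] [Algebra K₀ L] [IsScalarTower R K₀ L] [FiniteDimensional K₀ L]
    [Algebra.IsSeparable K₀ L] [Algebra K L] [IsScalarTower R K L]

variable {n : ℕ} {ι : Type*} [Fintype ι] [DecidableEq ι] {𝓑 : Type*}
variable {d : ι → ℕ} {a : ι → Expo n → L} {DK : ι → Expo n → Derivation ℤ K K}
  {DL : ι → Expo n → Derivation ℤ L L} {EK : 𝓑 → Derivation ℤ K K} {EL : 𝓑 → Derivation ℤ L L}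

omit [DecidableEq ι] in
open Classical in
include K₀ in
/-- The inequality at one place. -/
theorem place_ineq3 (v : Valuation L ℤᵐ⁰) (hsurj : Function.Surjective v)
    (hv : ∀ ρ : R, v (algebraMap R L ρ) ≤ 1)
    (hext : ∀ i I y, DL i I (algebraMap K L y) = algebraMap K L (DK i I y))
    (hextE : ∀ b y, EL b (algebraMap K L y) = algebraMap K L (EK b y))
    {δ : R} (hδ0 : v (algebraMap R L δ) ≠ 0)
    (hδ : ∀ i, ∀ I ∈ expo (Fin (n + 1)) (d i), ∀ b : K, IsIntegral R b →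
      IsIntegral R (algebraMap R K δ * DK i I b))
    (hδE : ∀ b, ∀ y : K, IsIntegral R y → IsIntegral R (algebraMap R K δ * EK b y))
    (C : Set L) (hC : ∀ c ∈ C, ∃ c' : K, IsIntegral R c' ∧ c = algebraMap K L c')
    (hres : ∀ y, v y ≤ 1 → ∃ c ∈ C, v (y - c) < 1) (hnat : ∀ k : ℕ, k ≠ 0 → v (k : L) = 1)
    {s₀ : K} {e₀ : ℕ} (he₀ : 1 ≤ e₀) (hs₀ : v (algebraMap K L s₀) = exp (-(e₀ : ℤ)))
    {x : Fin (n + 1) → L} (hx : x ≠ 0) {r' u c₁ : ℕ}
    (b : Fin r' → 𝓑) {𝒜 : Type*} [Fintype 𝒜]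
    (col : 𝒜 → Option (Fin r' ⊕ Fin u) → Fin (n + 1) ⊕ ι)
    (hcol : ∀ A, Nat.card {c // (col A c).isLeft} = c₁) (p : 𝒜 → L) (hp : p ≠ 0)
    (rows : Fin u → Row n d → L) (hrows : pl v rows ≠ 0)
    {J : L} (hJ0 : J ≠ 0)
    (hJ : ∀ (A : 𝒜) (τ : Fin u → Row n d),
        (bigM d a (col A) x (Sum.elim (fun k => EL (b k))
          (fun j => DL (τ j).1 (τ j).2.1))).det =
          J * p A * (Matrix.of fun i j => rows i (τ j)).det) :
    log (v J) + log (vmax v p) + log (pl v rows) +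
        ((r' + u : ℕ) : ℤ) * log (v (algebraMap R L δ)) ≤
      (c₁ : ℤ) * log (vmax v x) + ((e₀ - 1 : ℕ) : ℤ) +
        (if ∃ j, yv d a x j ≠ 0 ∧ v (yv d a x j) ≠ vmax v x ^ d j then 1 else 0) := by
  obtain ⟨π, hπ⟩ := hsurj (exp (-1 : ℤ))
  obtain ⟨hpol, hord⟩ := chart_polar (K₀ := K₀) v hv
    (Sum.elim (fun θ : Row n d => DK θ.1 θ.2.1) (fun k : Fin r' => EK (b k)))
    (Sum.elim (fun θ : Row n d => DL θ.1 θ.2.1) (fun k : Fin r' => EL (b k)))
    (by rintro (θ | k) y; exacts [hext _ _ y, hextE _ y]) δ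
    (by rintro (θ | k) y hy; exacts [hδ _ _ θ.2.2 y hy, hδE _ y hy])
    C hC hres hnat hπ he₀ hs₀
  set k₂ : ℕ := if ∃ j, yv d a x j ≠ 0 ∧ v (yv d a x j) ≠ vmax v x ^ d j then 1 else 0 with hk₂
  have hy : ∀ j, yv d a x j ≠ 0 → v (yv d a x j) = vmax v x ^ d j ∨ k₂ = 1 := by
    intro j hj
    by_cases h : v (yv d a x j) = vmax v x ^ d j
    · exact Or.inl h
    · right
      rw [hk₂, if_pos ⟨j, hj, h⟩]
  obtain ⟨l, hl0, hlmax, -⟩ := exists_vmax v hx
  have hvmax : vmax v x ≠ 0 := by rw [hlmax]; exact (Valuation.ne_zero_iff v).mpr hl0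
  have hvJ : v J ≠ 0 := (Valuation.ne_zero_iff v).mpr hJ0
  obtain ⟨A₀, hA₀⟩ : ∃ A, p A ≠ 0 := by
    by_contra hcon
    push Not at hcon
    exact hp (funext hcon)
  -- the estimate for each minor
  have hA : ∀ (A : 𝒜) (τ : Fin u → Row n d), v (algebraMap R L δ) ^ (r' + u) *
      (v J * v (p A) * v (Matrix.of fun i j => rows i (τ j)).det) ≤
      vmax v x ^ c₁ * exp ((e₀ - 1 + k₂ : ℕ) : ℤ) := by
    intro A τ
    let E₀ : Fin r' ⊕ Fin u → Derivation ℤ L L :=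
      Sum.elim (fun k => EL (b k)) (fun j => DL (τ j).1 (τ j).2.1)
    let E₁ : Fin r' ⊕ Fin u → Derivation ℤ L L := fun ρ => algebraMap R L δ • E₀ ρ
    have hpol1 : ∀ y, v y ≤ 1 → ∃ g', v g' ≤ 1 ∧ ∀ ρ, v (E₁ ρ y - g' * E₁ ρ π) ≤ 1 := by
      intro y hy
      obtain ⟨g', hg', h⟩ := hpol y hy
      refine ⟨g', hg', ?_⟩
      rintro (k | j)
      · exact h (Sum.inr k)
      · exact h (Sum.inl (τ j))
    have hord1 : ∀ ρ, v (E₁ ρ π) ≤ exp ((e₀ - 1 : ℕ) : ℤ) := by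
      have he : ((e₀ - 1 : ℕ) : ℤ) = (e₀ : ℤ) - 1 := by omega
      rw [he]
      rintro (k | j)
      · exact hord (Sum.inr k)
      · exact hord (Sum.inl (τ j))
    have h1 := det_bigM_le (a := a) v hπ E₁ hpol1 hord1 hx hy (col A)
    rw [hcol A] at h1
    have h2 : (bigM d a (col A) x E₁).det =
        (∏ _ρ : Fin r' ⊕ Fin u, algebraMap R L δ) *
          (J * p A * (Matrix.of fun i j => rows i (τ j)).det) := by
      rw [← hJ A τ]
      exact bigM_smul (col A) x E₀ (fun _ => algebraMap R L δ)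
    rw [h2, Finset.prod_const, Finset.card_univ, Fintype.card_sum, Fintype.card_fin,
      Fintype.card_fin] at h1
    simpa only [map_mul, map_pow] using h1
  obtain ⟨A₁, -, hA₁⟩ := Finset.exists_max_image Finset.univ (fun A => v (p A))
    ⟨A₀, Finset.mem_univ _⟩
  have hvp : vmax v p = v (p A₁) :=
    le_antisymm (Finset.sup_le hA₁) (Finset.le_sup (f := fun A => v (p A)) (Finset.mem_univ A₁))
  have hvp0 : vmax v p ≠ 0 := by
    intro h0
    have h1 : v (p A₀) ≤ vmax v p := Finset.le_sup (f := fun A => v (p A)) (Finset.mem_univ A₀)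
    rw [h0, le_zero_iff, Valuation.zero_iff] at h1
    exact hA₀ h1
  obtain ⟨τ₁, hτ₁⟩ : ∃ τ : Fin u → Row n d,
      pl v rows = v (Matrix.of fun i j => rows i (τ j)).det := by
    have hne : (Finset.univ : Finset (Fin u → Row n d)).Nonempty := by
      by_contra hcon
      rw [Finset.not_nonempty_iff_eq_empty] at hcon
      apply hrows
      show (Finset.univ : Finset (Fin u → Row n d)).sup _ = 0
      rw [hcon]
      rfl
    obtain ⟨τ₁, -, h1⟩ := Finset.exists_max_image Finset.univ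
      (fun τ : Fin u → Row n d => v (Matrix.of fun i j => rows i (τ j)).det) hne
    exact ⟨τ₁, le_antisymm (Finset.sup_le h1) (Finset.le_sup
      (f := fun τ : Fin u → Row n d => v (Matrix.of fun i j => rows i (τ j)).det)
      (Finset.mem_univ τ₁))⟩
  have h := hA A₁ τ₁
  rw [← hvp, ← hτ₁] at h
  have hlhs : v (algebraMap R L δ) ^ (r' + u) * (v J * vmax v p * pl v rows) ≠ 0 :=
    mul_ne_zero (pow_ne_zero _ hδ0) (mul_ne_zero (mul_ne_zero hvJ hvp0) hrows)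
  have hrhs : vmax v x ^ c₁ * exp ((e₀ - 1 + k₂ : ℕ) : ℤ) ≠ 0 :=
    mul_ne_zero (pow_ne_zero _ hvmax) exp_ne_zero
  have h1 := (log_le_log hlhs hrhs).mpr h
  rw [log_mul (pow_ne_zero _ hδ0) (mul_ne_zero (mul_ne_zero hvJ hvp0) hrows),
    log_mul (mul_ne_zero hvJ hvp0) hrows, log_mul hvJ hvp0, log_pow',
    log_mul (pow_ne_zero _ hvmax) exp_ne_zero, log_pow', log_exp] at h1
  have h2 : ((e₀ - 1 + k₂ : ℕ) : ℤ) = ((e₀ - 1 : ℕ) : ℤ) + (if ∃ j, yv d a x j ≠ 0 ∧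
      v (yv d a x j) ≠ vmax v x ^ d j then 1 else 0 : ℤ) := by
    rw [hk₂]
    push_cast
    rfl
  rw [h2] at h1
  linarith

end PlaceIneq3

end Pool.Agent.Lib.MP_44a246_ntJ
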