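import Mathlib
import Pool.Agent.Lib.MP_44a246_ntM.M2
import Pool.Agent.Lib.MP_44a246_ntJ.J4

/-!
The height of the space of rows and of the tangent space.
-/

namespace Pool.Agent.Lib.MP_44a246_ntJ

open Pool.Agent.Lib.MP_e52354_nt Pool.Agent.Lib.MP_44a246_nt Pool.Agent.Lib.MP_44a246_ntM
  Pool.Agent.Lib.MP_44a246_ntS Pool.Agent.Lib.MP_44a246_ntL WithZero Polynomial

universe u v w

section Main2

variable {k₀ k : Type*} {κ : Type u} {K : Type v} [Field k₀] [CharZero k₀] [Field k] [Field κ]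
  [IsAlgClosed κ] [CharZero κ] [Field K]
  [Algebra k₀ κ] [Algebra κ K] [Algebra k₀ K] [IsScalarTower k₀ κ K]
  [Algebra k₀ k] [Algebra k K] [IsScalarTower k₀ k K] [FinTrdeg k₀ k]
  [Algebra κ[X] K] [IsScalarTower κ κ[X] K]
  [Algebra (RatFunc κ) K] [IsScalarTower κ[X] (RatFunc κ) K]
  [Algebra (Rinf κ) K] [IsScalarTower (Rinf κ) (RatFunc κ) K]
  [FiniteDimensional (RatFunc κ) K]

variable {n : ℕ} {ι : Type*} [Fintype ι] [DecidableEq ι] {d : ι → ℕ} {aK : ι → Expo n → K}

include k₀ in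
theorem main_U (hK : IsFF κ K) (ht' : Transcendental κ (algebraMap κ[X] K X))
    (halg : Algebra.IsAlgebraic (IntermediateField.adjoin κ {algebraMap κ[X] K X}) K)
    (hc : AlgebraicIndependent k
      (fun θ : {θ : ι × Expo n // θ.2 ∈ expo (Fin (n + 1)) (d θ.1)} => aK θ.1.1 θ.1.2))
    {s : K} (hs0 : s ≠ 0) :
    ∃ C : ℕ, ∀ (L : Type w) [Field L] [Algebra κ L] [Algebra κ[X] L] [IsScalarTower κ κ[X] L]
      [Algebra (RatFunc κ) L] [IsScalarTower κ[X] (RatFunc κ) L]
      [Algebra (Rinf κ) L] [IsScalarTower (Rinf κ) (RatFunc κ) L]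
      [Algebra K L] [IsScalarTower κ K L] [IsScalarTower κ[X] K L] [IsScalarTower (Rinf κ) K L]
      [IsScalarTower (RatFunc κ) K L] [FiniteDimensional K L] [Algebra k L]
      [IsScalarTower k K L] (x : Fin (n + 1) → L) (_ : x ≠ 0)
      (Θ Θ₁ : Submodule L (Fin (n + 1) → L))
      (_ : Θ = tangent (Set.range (algebraMap k L)) x)
      (_ : Θ₁ = tangent (Set.range (algebraMap k L) ∪ coefSet L d aK) x),
      ∃ U : Submodule L (Row n d → L), (∀ i, xiB d x i ∈ U) ∧
        Module.finrank L U + Module.finrank L Θ₁ +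
          Nat.card {i // yv d (fun i I => algebraMap K L (aK i I)) x i = 0} ≤
          Module.finrank L Θ + Fintype.card ι ∧
        subHeight κ Θ + ht κ U ≤ (Module.finrank L Θ : ℤ) * height κ x +
          ((truncSet (κ := κ) d aK s x).ncard : ℤ) + (ramDeg κ L K : ℤ) +
          (C : ℤ) * (Module.finrank K L : ℤ) := by
  classical
  obtain ⟨B, iB, z, m', c', DK, EK, D'K, e, e', hDK, hEKa, hDK0, hEK0, hD'0, hD'a, hD'c, hz, hzE,
    ⟨δf, hδf0, hf1, hf1', hf2, hf3, hf4⟩, ⟨δi, hδi0, hi1, hi1', hi2, hi3, hi4⟩⟩ :=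
    exists_data3 (k₀ := k₀) (n := n) (d := d) (aK := aK) ht' halg hc s
  refine ⟨((n + Fintype.card ι + 1 : ℕ) : ℤ).toNat * ((Module.finrank (RatFunc κ) K : ℤ) *
    (δf.natDegree - (δi : RatFunc κ).intDegree)).toNat, ?_⟩
  intro L _ _ _ _ _ _ _ _ _ _ _ _ _ _ _ _ x hx Θ Θ₁ hΘ hΘ₁
  have hcK : CharZero K := charZero_of_injective_algebraMap (algebraMap κ K).injective
  have : FiniteDimensional (RatFunc κ) L := FiniteDimensional.trans (RatFunc κ) K L
  have hL : IsFF κ L := hK.of_finite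
  choose DL hDL using fun i I => exists_extension (K := K) (L := L) (DK i I)
  choose EL hEL using fun b => exists_extension (K := K) (L := L) (EK b)
  choose D'L hD'L using fun j => exists_extension (K := K) (L := L) (D'K j)
  let ik₀ : Algebra k₀ L := ((algebraMap K L).comp (algebraMap k₀ K)).toAlgebra
  have tk₀ : IsScalarTower k₀ K L := IsScalarTower.of_algebraMap_eq' rfl
  have tk₀' : IsScalarTower k₀ k L := IsScalarTower.of_algebraMap_eq fun c => by
    rw [IsScalarTower.algebraMap_apply k K L, IsScalarTower.algebraMap_apply k₀ K L,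
      IsScalarTower.algebraMap_apply k₀ k K]
  have hD : DualFam d (fun i I => algebraMap K L (aK i I)) DL := by
    intro i I hI j J hJ
    rw [hDL, hDK i I hI j J hJ]
    split_ifs <;> simp
  have hDL0 : ∀ i I (c : k), DL i I (algebraMap k L c) = 0 := by
    intro i I c
    rw [IsScalarTower.algebraMap_apply k K L, hDL, hDK0, map_zero]
  have hEL0 : ∀ b (c : k), EL b (algebraMap k L c) = 0 := by
    intro b c
    rw [IsScalarTower.algebraMap_apply k K L, hEL, hEK0, map_zero]
  have hD'L0 : ∀ j (c : k₀), D'L j (algebraMap k₀ L c) = 0 := by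
    intro j c
    rw [IsScalarTower.algebraMap_apply k₀ K L, hD'L, hD'0, map_zero]
  have hD'La : ∀ j i, ∀ I ∈ expo (Fin (n + 1)) (d i), D'L j (algebraMap K L (aK i I)) = 0 := by
    intro j i I hI
    rw [hD'L, hD'a j i I hI, map_zero]
  have hD'Lc : ∀ j j', D'L j (algebraMap k L (c' j')) = if j = j' then 1 else 0 := by
    intro j j'
    rw [IsScalarTower.algebraMap_apply k K L, hD'L, hD'c]
    split_ifs <;> simp
  have hELa : ∀ b i, ∀ I ∈ expo (Fin (n + 1)) (d i), EL b (algebraMap K L (aK i I)) = 0 := by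
    intro b i I hI
    rw [hEL, hEKa b i I hI, map_zero]
  obtain ⟨l, hl⟩ : ∃ l, x l ≠ 0 := by
    by_contra hcon
    push Not at hcon
    exact hx (funext hcon)
  obtain ⟨hT2, hT1⟩ := span_eq_tangent3 (k₀ := k₀) (k := k) (K := K) (L := L) (n := n) (aK := aK) hz
    hDL0 hEL0 hD'L0 hD'La hD'Lc hD hELa (fun b i I => algebraMap K L (e b i I))
    (fun b j => algebraMap K L (e' b j)) (by
      intro b b'
      rw [finsum_eq_sum_of_fintype, hEL]
      simp only [hDL, hD'L, ← map_mul, ← map_sum, ← map_add]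
      rw [hzE b b']
      split_ifs <;> simp) x
  rw [← hΘ] at hT2
  rw [← hΘ₁] at hT1
  have key : ∀ bas : Module.Basis (Fin (Module.finrank L Θ)) L Θ,
      ∃ (r' u : ℕ) (b : Fin r' → B) (rows : Fin u → Row n d → L)
      (col : (Fin (Module.finrank L Θ) → Fin (n + 1)) →
        Option (Fin r' ⊕ Fin u) → Fin (n + 1) ⊕ ι),
      r' + 1 = Module.finrank L Θ₁ ∧
      LinearIndependent L rows ∧
      (∀ i, xiB d x i ∈ Submodule.span L (Set.range rows)) ∧
      u + Module.finrank L Θ₁ +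
        Nat.card {i // yv d (fun i I => algebraMap K L (aK i I)) x i = 0} ≤
        Module.finrank L Θ + Fintype.card ι ∧
      (∀ A, Nat.card {c // (col A c).isLeft} = Module.finrank L Θ) ∧
      ∃ J : L, J ≠ 0 ∧ ∀ (A : Fin (Module.finrank L Θ) → Fin (n + 1))
        (τ : Fin u → Row n d),
        (bigM d (fun i I => algebraMap K L (aK i I)) (col A) x (Sum.elim (fun k => EL (b k))
          (fun j => DL (τ j).1 (τ j).2.1))).det =
          J * (Matrix.of fun i j => (bas i : Fin (n + 1) → L) (A j)).det *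
            (Matrix.of fun i j => rows i (τ j)).det := by
    rw [← hT2, ← hT1]
    intro bas
    exact exists_U hD hELa hl bas
  obtain ⟨r', u, b, rows, col, hr', hrows, hxi, hu, hcol, J, hJ0, hJ⟩ := key (Module.finBasis L Θ)
  have hp : (fun A : Fin (Module.finrank L Θ) → Fin (n + 1) =>
      (Matrix.of fun i j => (Module.finBasis L Θ i : Fin (n + 1) → L) (A j)).det) ≠ 0 := by
    have hli : LinearIndependent L (fun i => (Module.finBasis L Θ i : Fin (n + 1) → L)) :=
      (Module.finBasis L Θ).linearIndependent.map' Θ.subtype (Submodule.ker_subtype Θ)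
    obtain ⟨A, hA⟩ := exists_minor_ne (W := Θ) _ hli
    intro h0
    exact hA (congrFun h0 A)
  have h1 := core3 hL hDL hEL hs0 hδf0 hf1 hf1' hf2 hf3 hf4 hδi0 hi1 hi1' hi2 hi3 hi4 hx b
    col hcol _ hp rows hrows hJ0 hJ
  change subHeight κ Θ + _ ≤ _ at h1
  have hfr : Module.finrank L (Submodule.span L (Set.range rows)) = u := by
    rw [finrank_span_eq_card hrows, Fintype.card_fin]
  refine ⟨Submodule.span L (Set.range rows), hxi, by rw [hfr]; exact hu, ?_⟩
  set c₁ := Module.finrank L Θ with hc₁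
  set c₀ := Module.finrank L Θ₁ with hc₀
  set q := Nat.card {i // yv d (fun i I => algebraMap K L (aK i I)) x i = 0} with hq
  have h7 : (Module.finrank (RatFunc κ) L : ℤ) =
      (Module.finrank (RatFunc κ) K : ℤ) * Module.finrank K L := by
    rw [← Module.finrank_mul_finrank (RatFunc κ) K L]
    push_cast
    rfl
  have h8 : (δi : RatFunc κ).intDegree ≤ 0 := (mem_Rinf κ).mp δi.2
  set A : ℤ := (Module.finrank (RatFunc κ) K : ℤ) *
    (δf.natDegree - (δi : RatFunc κ).intDegree) with hA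
  have hA0 : 0 ≤ A := by
    refine mul_nonneg (Int.natCast_nonneg _) ?_
    have : (0 : ℤ) ≤ δf.natDegree := Int.natCast_nonneg _
    linarith
  have h9 : ((r' + u + 1 : ℕ) : ℤ) * ((Module.finrank (RatFunc κ) L : ℤ) *
          (δf.natDegree - (δi : RatFunc κ).intDegree)) =
      ((r' + u + 1 : ℕ) : ℤ) * (A * Module.finrank K L) := by
    rw [h7, hA]; ring
  have h10 : c₁ ≤ n + 1 := by
    have := Submodule.finrank_le Θ
    rwa [Module.finrank_fintype_fun_eq_card, Fintype.card_fin] at this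
  have h11 : ((r' + u + 1 : ℕ) : ℤ) * (A * Module.finrank K L) ≤
      ((n + Fintype.card ι + 1 : ℕ) : ℤ) * (A * Module.finrank K L) := by
    refine mul_le_mul_of_nonneg_right ?_ (mul_nonneg hA0 (Int.natCast_nonneg _))
    exact_mod_cast (by omega : r' + u + 1 ≤ n + Fintype.card ι + 1)
  have h12 : (((((n + Fintype.card ι + 1 : ℕ) : ℤ).toNat * A.toNat : ℕ)) : ℤ) *
      (Module.finrank K L : ℤ) = ((n + Fintype.card ι + 1 : ℕ) : ℤ) * (A * Module.finrank K L) := by
    rw [Nat.cast_mul, Int.toNat_of_nonneg hA0, Int.toNat_natCast]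
    ring
  rw [h9] at h1
  rw [h12]
  linarith

end Main2

end Pool.Agent.Lib.MP_44a246_ntJ
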