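import Mathlib
import Pool.Agent.Lib.MP_44a246_ntS.SB2c
import Pool.Agent.Lib.MP_44a246_ntJ.J2

/-!
The slope lemma: a bound for the slopes at a power of the point gives a bound for the slopes at the
space of the evaluations.
-/

namespace Pool.Agent.Lib.MP_44a246_ntJ

open Pool.Agent.Lib.MP_e52354_nt Pool.Agent.Lib.MP_44a246_nt
  Pool.Agent.Lib.MP_44a246_ntS Pool.Agent.Lib.MP_44a246_ntL WithZero Module

section Abstract

variable {κ L : Type*} [Field κ] [IsAlgClosed κ] [CharZero κ] [Field L] [Algebra κ L]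
  {ι ι' : Type*} [Fintype ι] [Fintype ι']

/-- the slope lemma -/
theorem slope_lemma (h : IsFF κ L) {S : Type*} (T : S → Matrix ι' ι κ) {ξ' : ι' → L}
    (hξ : ξ' ≠ 0) {X₀ : Submodule L (ι → L)}
    (hT : ∀ s, X₀.map ((T s).map (algebraMap κ L)).mulVecLin ≤ Submodule.span L {ξ'})
    (hT' : ∀ u, (∀ s, ((T s).map (algebraMap κ L)).mulVec u ∈ Submodule.span L {ξ'}) → u ∈ X₀)
    {ν : ℝ} (hν : ∀ Q : Submodule L (ι' → L), ξ' ∈ Q →
      (ht κ (Submodule.span L {ξ'}) : ℝ) ≤ ht κ Q + ((finrank L Q : ℝ) - 1) * ν)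
    (U : Submodule L (ι → L)) (hU : X₀ ≤ U) :
    (ht κ X₀ : ℝ) ≤ ht κ U + ((finrank L U : ℝ) - finrank L X₀) * ν := by
  induction hn : finrank L U using Nat.strong_induction_on generalizing U with
  | _ N ih =>
    by_cases hUX : U ≤ X₀
    · obtain rfl : U = X₀ := le_antisymm hUX hU
      rw [hn]
      simp
    · obtain ⟨u, hu, hu0⟩ := SetLike.not_le_iff_exists.mp hUX
      have hs : ∃ s, ((T s).map (algebraMap κ L)).mulVec u ∉ Submodule.span L {ξ'} := by
        by_contra hcon
        push Not at hcon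
        exact hu0 (hT' u hcon)
      obtain ⟨s, hs⟩ := hs
      set f := ((T s).map (algebraMap κ L)).mulVecLin with hf
      let A : Submodule L (ι → L) := U ⊓ (Submodule.span L {ξ'}).comap f
      have hAU : A ≤ U := inf_le_left
      have hXA : X₀ ≤ A := le_inf hU (Submodule.map_le_iff_le_comap.mp (hT s))
      have h1 := ht_map_const h (T s) (A := A) (B := U) (A' := Submodule.span L {ξ'}) hAU
        (Submodule.map_le_iff_le_comap.mpr inf_le_right) (fun b hb hb' => ⟨hb, hb'⟩)
      have h2 := finrank_sup_map hAU f (A' := Submodule.span L {ξ'})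
        (Submodule.map_le_iff_le_comap.mpr inf_le_right) (fun b hb hb' => ⟨hb, hb'⟩)
      have h3 : finrank L (Submodule.span L {ξ'}) = 1 := finrank_span_singleton hξ
      have h4 := hν (Submodule.span L {ξ'} ⊔ U.map f)
        (Submodule.mem_sup_left (Submodule.mem_span_singleton_self _))
      have h5 : finrank L A < finrank L U := by
        refine Submodule.finrank_lt_finrank_of_lt (lt_of_le_of_ne hAU fun h => hs ?_)
        have : u ∈ A := h ▸ hu
        exact this.2
      have h6 := ih _ (hn ▸ h5) A hXA rfl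
      rw [h3] at h2
      have h2' : (finrank L (Submodule.span L {ξ'} ⊔ U.map f : Submodule L (ι' → L)) : ℝ) +
          finrank L A = 1 + finrank L U := by exact_mod_cast h2
      have h1' : (ht κ (Submodule.span L {ξ'} ⊔ U.map f) : ℝ) + ht κ A ≤
          ht κ U + ht κ (Submodule.span L {ξ'}) := by exact_mod_cast h1
      have h7 : (finrank L (Submodule.span L {ξ'} ⊔ U.map f : Submodule L (ι' → L)) : ℝ) - 1 =
          finrank L U - finrank L A := by linarith
      rw [h7] at h4
      rw [← hn]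
      have h8 : ((finrank L U : ℝ) - finrank L X₀) * ν =
          ((finrank L U : ℝ) - finrank L A) * ν + ((finrank L A : ℝ) - finrank L X₀) * ν := by
        ring
      rw [h8]
      linarith

end Abstract

section Exch

variable {M : Type*} [Field M] {n : ℕ}

theorem exists_le_degree (H : Expo n) (j : ℕ) (hj : j ≤ H.degree) :
    ∃ J H' : Expo n, J + H' = H ∧ H'.degree = j := by
  induction j with
  | zero => exact ⟨H, 0, by simp, by simp⟩
  | succ j ih =>
    obtain ⟨J, H', h1, h2⟩ := ih (by omega)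
    have hJ : J ≠ 0 := by
      rintro rfl
      rw [zero_add] at h1
      subst h1
      omega
    obtain ⟨i, hi⟩ : ∃ i, J i ≠ 0 := by
      by_contra hcon
      push Not at hcon
      exact hJ (Finsupp.ext hcon)
    refine ⟨J - Finsupp.single i 1, Finsupp.single i 1 + H', ?_, ?_⟩
    · rw [← add_assoc, sub_add_single hi, h1]
    · rw [map_add, h2, Finsupp.degree_single, add_comm]

theorem prop_of_exch {D : ℕ} {x : Fin (n + 1) → M} {l : Fin (n + 1)} (hl : x l ≠ 0)
    (u : Expo n → M)
    (hex : ∀ H : Expo n, H.degree + 1 = D → ∀ a b,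
      x b * u (H + Finsupp.single a 1) = x a * u (H + Finsupp.single b 1)) :
    ∀ K : Expo n, K.degree = D → x l ^ D * u K = mon x K * u (Finsupp.single l D) := by
  intro K hK
  induction hj : D - K l using Nat.strong_induction_on generalizing K with
  | _ j ih =>
    by_cases hK1 : ∃ a, a ≠ l ∧ K a ≠ 0
    · obtain ⟨a, hal, ha⟩ := hK1
      set H := K - Finsupp.single a 1 with hH
      have h1 : H + Finsupp.single a 1 = K := sub_add_single ha
      have h2 : H.degree + 1 = D := by
        rw [← hK, ← h1, map_add, Finsupp.degree_single]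
      have h3 : (H + Finsupp.single l 1 : Expo n) l = K l + 1 := by
        rw [hH]
        simp [Finsupp.single_eq_of_ne hal.symm]
      have h4 : K l + K a ≤ D := by
        rw [← hK, Finsupp.degree_eq_sum]
        have : ∑ j ∈ ({l, a} : Finset (Fin (n + 1))), K j ≤ ∑ j, K j :=
          Finset.sum_le_sum_of_subset (Finset.subset_univ _)
        rwa [Finset.sum_pair hal.symm] at this
      have h5 := ih (D - (H + Finsupp.single l 1 : Expo n) l) (by omega) (H + Finsupp.single l 1)
        (by rw [map_add, Finsupp.degree_single, h2]) rfl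
      have h6 := hex H h2 a l
      rw [h1] at h6
      have h7 : mon x K = mon x H * x a := by rw [← h1, mon_add, mon_single, pow_one]
      rw [mon_add, mon_single, pow_one] at h5
      rw [h7]
      refine mul_left_cancel₀ hl ?_
      linear_combination (x l ^ D) * h6 + x a * h5
    · push Not at hK1
      have h1 : K = Finsupp.single l (K l) := by
        ext j
        by_cases hjl : j = l
        · subst hjl; simp
        · rw [Finsupp.single_eq_of_ne hjl]
          exact hK1 j hjl
      have h2 : K l = D := by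
        rw [← hK]
        conv_rhs => rw [h1, Finsupp.degree_single]
      rw [h2] at h1
      rw [h1, mon_single]

end Exch

section Concrete

variable {κ L : Type*} [Field κ] [Field L] [Algebra κ L] {n : ℕ}
  {ι τ : Type*} [Fintype ι] [DecidableEq ι] [Fintype τ] {d : ι → ℕ}

open Classical in
/-- the contraction with a monomial in one of the blocks -/
noncomputable def ctrM (κ : Type*) [Field κ] (d : ι → ℕ) (φ : τ → Expo n) (s : ι × Expo n) :
    Matrix τ (Row n d) κ :=
  Matrix.of fun f θ => if θ.1 = s.1 ∧ θ.2.1 = s.2 + φ f then 1 else 0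

omit [Fintype τ] in
theorem ctrM_mulVec {φ : τ → Expo n} {s : ι × Expo n} {m : ℕ}
    (hφ : ∀ t, (φ t).degree = m) (hs : s.2.degree + m = d s.1) (u : Row n d → L) (f : τ) :
    (((ctrM κ d φ s).map (algebraMap κ L)).mulVec u) f =
      u ⟨s.1, ⟨s.2 + φ f, mem_expo.mpr (by rw [map_add, hφ, hs])⟩⟩ := by
  classical
  unfold Matrix.mulVec dotProduct
  rw [Finset.sum_eq_single (⟨s.1, ⟨s.2 + φ f, mem_expo.mpr (by rw [map_add, hφ, hs])⟩⟩ : Row n d)]
  · simp [ctrM]
  · rintro ⟨i, ⟨I, hI⟩⟩ - hne
    have : ¬ (i = s.1 ∧ I = s.2 + φ f) := by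
      rintro ⟨rfl, rfl⟩
      exact hne rfl
    simp [ctrM, this]
  · intro h
    exact absurd (Finset.mem_univ _) h

omit [Fintype ι] in
theorem xiB_single (x : Fin (n + 1) → L) (l : Fin (n + 1)) (i j : ι) :
    xiB d x i (⟨j, ⟨Finsupp.single l (d j), mem_expo.mpr (Finsupp.degree_single _ _)⟩⟩ : Row n d) =
      if j = i then x l ^ d j else 0 := by
  unfold xiB
  simp only [mon_single]

theorem xiB_lin {x : Fin (n + 1) → L} (hx : x ≠ 0) : LinearIndependent L (xiB d x) := by
  obtain ⟨l, hl⟩ : ∃ l, x l ≠ 0 := by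
    by_contra hcon
    push Not at hcon
    exact hx (funext hcon)
  rw [Fintype.linearIndependent_iff]
  intro c hc i
  have h1 := congrFun hc (⟨i, ⟨Finsupp.single l (d i),
    mem_expo.mpr (Finsupp.degree_single _ _)⟩⟩ : Row n d)
  rw [Finset.sum_apply] at h1
  simp only [Pi.smul_apply, smul_eq_mul, xiB_single, Pi.zero_apply, mul_ite, mul_zero] at h1
  rw [Finset.sum_ite_eq, if_pos (Finset.mem_univ _)] at h1
  exact (mul_eq_zero.mp h1).resolve_right (pow_ne_zero _ hl)

omit [Fintype τ] in
theorem mem_span_xiB {m : ℕ} (hm : 1 ≤ m) (hmd : ∀ i, m ≤ d i) {φ : τ → Expo n}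
    (hφ : ∀ t, (φ t).degree = m) (hφ' : ∀ I : Expo n, I.degree = m → ∃ t, φ t = I)
    {x : Fin (n + 1) → L} (hx : x ≠ 0) (u : Row n d → L)
    (hu : ∀ s : {s : ι × Expo n // s.2.degree + m = d s.1},
      ((ctrM κ d φ s.1).map (algebraMap κ L)).mulVec u ∈
        Submodule.span L {fun t => mon x (φ t)}) :
    u ∈ Submodule.span L (Set.range (xiB d x)) := by
  classical
  obtain ⟨l, hl⟩ : ∃ l, x l ≠ 0 := by
    by_contra hcon
    push Not at hcon
    exact hx (funext hcon)
  let u' : ι → Expo n → L := fun i I => if h : I ∈ expo (Fin (n + 1)) (d i) then u ⟨i, I, h⟩ else 0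
  have hu' : ∀ i I (h : I ∈ expo (Fin (n + 1)) (d i)), u' i I = u ⟨i, I, h⟩ := fun i I h =>
    dif_pos h
  have key : ∀ i, ∀ K : Expo n, K.degree = d i →
      x l ^ d i * u' i K = mon x K * u' i (Finsupp.single l (d i)) := by
    intro i
    refine prop_of_exch hl (u' i) ?_
    intro H hH a b
    obtain ⟨J, H', h1, h2⟩ := exists_le_degree H (m - 1) (by have := hmd i; omega)
    have hJ : J.degree + m = d i := by
      have : J.degree + H'.degree = H.degree := by rw [← map_add, h1]
      have := hmd i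
      omega
    obtain ⟨c, hc⟩ := Submodule.mem_span_singleton.mp (hu ⟨(i, J), hJ⟩)
    have hval : ∀ e, u' i (H + Finsupp.single e 1) = c * (mon x H' * x e) := by
      intro e
      obtain ⟨f, hf⟩ := hφ' (H' + Finsupp.single e 1) (by
        rw [map_add, h2, Finsupp.degree_single]; omega)
      have h3 := congrFun hc f
      rw [ctrM_mulVec (s := (i, J)) hφ hJ u f] at h3
      simp only [Pi.smul_apply, smul_eq_mul, hf, mon_add, mon_single, pow_one] at h3
      rw [h3, ← hu']
      congr 1
      rw [← h1]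
      abel
    rw [hval a, hval b]
    ring
  have hsum : u = ∑ i, (u' i (Finsupp.single l (d i)) / x l ^ d i) • xiB d x i := by
    funext ⟨i, I, hI⟩
    rw [Finset.sum_apply]
    simp only [Pi.smul_apply, smul_eq_mul, xiB, mul_ite, mul_zero]
    rw [Finset.sum_ite_eq, if_pos (Finset.mem_univ _), ← hu' i I hI]
    have h1 := key i I (mem_expo.mp hI)
    have h2 : x l ^ d i ≠ 0 := pow_ne_zero _ hl
    field_simp
    linear_combination h1
  rw [hsum]
  exact Submodule.sum_mem _ fun i _ => Submodule.smul_mem _ _ (Submodule.subset_span ⟨i, rfl⟩)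

omit [Fintype τ] in
theorem map_xiB_le {m : ℕ} {φ : τ → Expo n} (hφ : ∀ t, (φ t).degree = m)
    {x : Fin (n + 1) → L} (s : {s : ι × Expo n // s.2.degree + m = d s.1}) :
    (Submodule.span L (Set.range (xiB d x))).map
      ((ctrM κ d φ s.1).map (algebraMap κ L)).mulVecLin ≤
        Submodule.span L {fun t => mon x (φ t)} := by
  classical
  rw [Submodule.map_span_le]
  rintro _ ⟨i, rfl⟩
  refine Submodule.mem_span_singleton.mpr ⟨if s.1.1 = i then mon x s.1.2 else 0, ?_⟩
  funext f
  rw [Matrix.mulVecLin_apply, ctrM_mulVec hφ s.2]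
  simp only [Pi.smul_apply, smul_eq_mul, xiB, mon_add]
  by_cases h : s.1.1 = i
  · rw [if_pos h, if_pos h]
  · rw [if_neg h, if_neg h, zero_mul]

end Concrete

section Height

variable {κ L : Type*} [Field κ] [IsAlgClosed κ] [CharZero κ] [Field L] [Algebra κ L] {n : ℕ}
  {ι τ : Type*} [Fintype ι] [DecidableEq ι] [Fintype τ] {d : ι → ℕ}

theorem sum_le_ht_xiB (h : IsFF κ L) {x : Fin (n + 1) → L} (hx : x ≠ 0) :
    (∑ i, (d i : ℤ)) * height κ x ≤ ht κ (Submodule.span L (Set.range (xiB d x))) := by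
  have hlin : LinearIndependent L (xiB d x) := xiB_lin hx
  rw [ht_span h hlin]
  have h1 : (∑ i, (d i : ℤ)) * height κ x =
      ∑ᶠ w : Place κ L, (∑ i, (d i : ℤ)) * log (vmax w.1 x) := by
    unfold height
    rw [mul_finsum]
  rw [h1]
  refine finsum_mono ?_ (pl_support h hlin) fun w => ?_
  · refine (h.vmax_support hx).subset fun w hw h0 => hw ?_
    simp only at h0 ⊢
    rw [h0, mul_zero]
  · obtain ⟨l, -, hl⟩ := Finset.exists_mem_eq_sup (Finset.univ : Finset (Fin (n + 1)))
      Finset.univ_nonempty (fun j => w.1 (x j))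
    have h2 : vmax w.1 x = w.1 (x l) := hl
    have h3 : vmax w.1 x ≠ 0 := by rw [Ne, vmax_eq_zero_iff]; exact hx
    have h4 : vmax w.1 x ^ (∑ i, d i) ≤ pl w.1 (xiB d x) := by
      have h5 := le_vmax w.1 (fun e : ι → Row n d =>
        (Matrix.of fun i j => xiB d x i (e j)).det)
        (fun j => ⟨j, ⟨Finsupp.single l (d j), mem_expo.mpr (Finsupp.degree_single _ _)⟩⟩)
      refine le_trans (le_of_eq ?_) h5
      have h6 : (Matrix.of fun i j => xiB d x i (⟨j, ⟨Finsupp.single l (d j),
          mem_expo.mpr (Finsupp.degree_single _ _)⟩⟩ : Row n d)) =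
          Matrix.diagonal fun i => x l ^ d i := by
        ext i j
        rw [Matrix.of_apply, xiB_single, Matrix.diagonal_apply]
        by_cases hij : j = i
        · subst hij; simp
        · rw [if_neg hij, if_neg (fun h => hij h.symm)]
      simp only
      rw [h6, Matrix.det_diagonal, Finset.prod_pow_eq_pow_sum, map_pow, h2]
    have h7 := (log_le_log (pow_ne_zero _ h3) (pl_ne_zero w.1 hlin)).mpr h4
    rw [log_pow, nsmul_eq_mul] at h7
    push_cast at h7
    exact h7

theorem ht_mon_le (h : IsFF κ L) {m : ℕ} {φ : τ → Expo n}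
    (hφ : ∀ t, (φ t).degree = m) (hφ' : ∀ I : Expo n, I.degree = m → ∃ t, φ t = I)
    {x : Fin (n + 1) → L} (hx : x ≠ 0) :
    (fun t => mon x (φ t)) ≠ 0 ∧
      ht κ (Submodule.span L {fun t => mon x (φ t)}) ≤ m * height κ x := by
  obtain ⟨l, hl⟩ : ∃ l, x l ≠ 0 := by
    by_contra hcon
    push Not at hcon
    exact hx (funext hcon)
  have hne : (fun t => mon x (φ t)) ≠ 0 := by
    obtain ⟨t, ht⟩ := hφ' (Finsupp.single l m) (Finsupp.degree_single _ _)
    intro h0
    have := congrFun h0 t
    simp only [ht, mon_single, Pi.zero_apply] at this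
    exact pow_ne_zero _ hl this
  refine ⟨hne, ?_⟩
  rw [ht_single h hne]
  unfold height
  rw [mul_finsum]
  refine finsum_mono (h.vmax_support hne) ?_ fun w => ?_
  · refine (h.vmax_support hx).subset fun w hw h0 => hw ?_
    simp only at h0 ⊢
    rw [h0, mul_zero]
  · have h3 : vmax w.1 x ≠ 0 := by rw [Ne, vmax_eq_zero_iff]; exact hx
    have h4 : vmax w.1 (fun t => mon x (φ t)) ≤ vmax w.1 x ^ m := by
      refine vmax_le w.1 fun t => ?_
      unfold mon
      rw [map_prod]
      calc ∏ j, w.1 (x j ^ (φ t) j) ≤ ∏ j, vmax w.1 x ^ (φ t) j := by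
            refine Finset.prod_le_prod' fun j _ => ?_
            rw [map_pow]
            exact pow_le_pow_left' (le_vmax w.1 x j) _
        _ = vmax w.1 x ^ m := by
            rw [Finset.prod_pow_eq_pow_sum, ← Finsupp.degree_eq_sum, hφ]
    have h5 : vmax w.1 (fun t => mon x (φ t)) ≠ 0 := by rw [Ne, vmax_eq_zero_iff]; exact hne
    have h7 := (log_le_log h5 (pow_ne_zero _ h3)).mpr h4
    rwa [log_pow, nsmul_eq_mul] at h7

theorem slope_bound (h : IsFF κ L) {m : ℕ} (hm : 1 ≤ m) (hmd : ∀ i, m ≤ d i) {φ : τ → Expo n}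
    (hφ : ∀ t, (φ t).degree = m) (hφ' : ∀ I : Expo n, I.degree = m → ∃ t, φ t = I)
    {x : Fin (n + 1) → L} (hx : x ≠ 0) {ν : ℝ}
    (hν : ∀ Q : Submodule L (τ → L), (fun t => mon x (φ t)) ∈ Q →
      (m * height κ x : ℝ) ≤ ht κ Q + ((finrank L Q : ℝ) - 1) * ν)
    (U : Submodule L (Row n d → L)) (hU : ∀ i, xiB d x i ∈ U) :
    (∑ i, (d i : ℝ)) * height κ x ≤ ht κ U + ((finrank L U : ℝ) - Fintype.card ι) * ν := by
  obtain ⟨hne, hle⟩ := ht_mon_le h hφ hφ' hx
  have h1 := slope_lemma h (S := {s : ι × Expo n // s.2.degree + m = d s.1})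
    (fun s => ctrM κ d φ s.1) hne (X₀ := Submodule.span L (Set.range (xiB d x)))
    (map_xiB_le hφ) (mem_span_xiB hm hmd hφ hφ' hx) (ν := ν) (fun Q hQ => by
      refine le_trans ?_ (hν Q hQ)
      exact_mod_cast hle) U (Submodule.span_le.mpr (by rintro _ ⟨i, rfl⟩; exact hU i))
  rw [finrank_span_eq_card (xiB_lin hx)] at h1
  refine le_trans ?_ h1
  exact_mod_cast sum_le_ht_xiB h hx

end Height

end Pool.Agent.Lib.MP_44a246_ntJ
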