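import Mathlib
import Pool.Agent.Lib.MP_44a246_nt.Main2
import Pool.Agent.Lib.MP_44a246_ntJ.Defs
import Pool.Agent.Lib.MP_44a246_ntJ.J6

/-!
The vector of the monomials and the slopes.
-/

namespace Pool.Agent.Lib.MP_44a246_ntJ

open Pool.Agent.Lib.MP_e52354_nt Pool.Agent.Lib.MP_44a246_nt
  Pool.Agent.Lib.MP_44a246_ntS Pool.Agent.Lib.MP_44a246_ntL WithZero Module

section Ver

variable {n m : ℕ} {M : Type*} [Field M]

/-- the exponent of a monomial -/
noncomputable def phi (n m : ℕ) (s : Sym (Fin (n + 1)) m) : Expo n := Multiset.toFinsupp s.1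

theorem phi_degree (s : Sym (Fin (n + 1)) m) : (phi n m s).degree = m := by
  rw [Finsupp.degree_eq_sum]
  simp only [phi, Multiset.toFinsupp_apply]
  rw [Multiset.sum_count_eq_card (fun a _ => Finset.mem_univ a), s.2]

theorem phi_surj (I : Expo n) (hI : I.degree = m) : ∃ s, phi n m s = I := by
  refine ⟨⟨Finsupp.toMultiset I, ?_⟩, ?_⟩
  · rw [Finsupp.card_toMultiset, ← hI]
    rfl
  · unfold phi
    simp

theorem veronese_eq (x : Fin (n + 1) → M) : veronese m x = fun s => mon x (phi n m s) := by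
  funext s
  unfold veronese mon phi
  rw [Finset.prod_multiset_map_count]
  simp only [Multiset.toFinsupp_apply]
  refine Finset.prod_subset (Finset.subset_univ _) fun j _ hj => ?_
  rw [Multiset.mem_toFinset] at hj
  rw [Multiset.count_eq_zero_of_notMem hj, pow_zero]

end Ver

section Height

variable {κ L : Type*} [Field κ] [IsAlgClosed κ] [CharZero κ] [Field L] [Algebra κ L] {n : ℕ}
  {ι : Type*} [Fintype ι] [DecidableEq ι] {d : ι → ℕ}

theorem veronese_ne {m : ℕ} (h : IsFF κ L) {x : Fin (n + 1) → L} (hx : x ≠ 0) :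
    veronese m x ≠ 0 := by
  rw [veronese_eq]
  exact (ht_mon_le h phi_degree phi_surj hx).1

theorem le_ht_veronese {m : ℕ} (h : IsFF κ L) {x : Fin (n + 1) → L} (hx : x ≠ 0) :
    m * height κ x ≤ ht κ (Submodule.span L {veronese m x}) := by
  have hne := veronese_ne (m := m) h hx
  rw [ht_single h hne]
  unfold height
  rw [mul_finsum]
  refine finsum_mono ?_ (h.vmax_support hne) fun w => ?_
  · refine (h.vmax_support hx).subset fun w hw h0 => hw ?_
    simp only at h0 ⊢
    rw [h0, mul_zero]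
  · have h3 : vmax w.1 x ≠ 0 := by rw [Ne, vmax_eq_zero_iff]; exact hx
    obtain ⟨l, -, hl⟩ := Finset.exists_mem_eq_sup (Finset.univ : Finset (Fin (n + 1)))
      Finset.univ_nonempty (fun j => w.1 (x j))
    have h2 : vmax w.1 x = w.1 (x l) := hl
    have h4 : vmax w.1 x ^ m ≤ vmax w.1 (veronese m x) := by
      obtain ⟨t, ht⟩ := phi_surj (m := m) (Finsupp.single l m : Expo n) (Finsupp.degree_single _ _)
      have h5 := le_vmax w.1 (veronese m x) t
      have h6 : veronese m x t = x l ^ m := by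
        rw [veronese_eq]
        simp only [ht, mon_single]
      rw [h6, map_pow, ← h2] at h5
      exact h5
    have h7 := (log_le_log (pow_ne_zero _ h3) (by rw [Ne, vmax_eq_zero_iff]; exact hne)).mpr h4
    rwa [log_pow, nsmul_eq_mul] at h7

theorem slope_bound' (h : IsFF κ L) {m : ℕ} (hm : 1 ≤ m) (hmd : ∀ i, m ≤ d i)
    {x : Fin (n + 1) → L} (hx : x ≠ 0) {ν : ℝ}
    (hν : ∀ Q : Submodule L (Sym (Fin (n + 1)) m → L), veronese m x ∈ Q →
      (m * height κ x : ℝ) ≤ subHeight κ Q + ((finrank L Q : ℝ) - 1) * ν)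
    (U : Submodule L (Row n d → L)) (hU : ∀ i, xiB d x i ∈ U) :
    (∑ i, (d i : ℝ)) * height κ x ≤ ht κ U + ((finrank L U : ℝ) - Fintype.card ι) * ν := by
  refine slope_bound h hm hmd phi_degree phi_surj hx (ν := ν) ?_ U hU
  intro Q hQ
  rw [← veronese_eq] at hQ
  exact hν Q hQ

/-- the exceptional alternative -/
theorem slope_or (h : IsFF κ L) {m : ℕ} {x : Fin (n + 1) → L} (hx : x ≠ 0) {T : ℝ} (hT : 0 < T) :
    (∀ Q : Submodule L (Sym (Fin (n + 1)) m → L), veronese m x ∈ Q →
      (m * height κ x : ℝ) ≤ subHeight κ Q + ((finrank L Q : ℝ) - 1) * (height κ x / T)) ∨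
    ∃ Q : Submodule L (Sym (Fin (n + 1)) m → L), veronese m x ∈ Q ∧ 2 ≤ finrank L Q ∧
      T * subHeight κ Q < (T * m - ((finrank L Q : ℝ) - 1)) * height κ x := by
  by_cases hcon : ∀ Q : Submodule L (Sym (Fin (n + 1)) m → L), veronese m x ∈ Q →
      (m * height κ x : ℝ) ≤ subHeight κ Q + ((finrank L Q : ℝ) - 1) * (height κ x / T)
  · exact Or.inl hcon
  right
  push Not at hcon
  obtain ⟨Q, hQ1, hQ2⟩ := hcon
  have h1 : T * subHeight κ Q < (T * m - ((finrank L Q : ℝ) - 1)) * height κ x := by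
    have h2 : T * (subHeight κ Q + ((finrank L Q : ℝ) - 1) * (height κ x / T)) <
        T * (m * height κ x) := mul_lt_mul_of_pos_left hQ2 hT
    have h3 : T * (subHeight κ Q + ((finrank L Q : ℝ) - 1) * (height κ x / T)) =
        T * subHeight κ Q + ((finrank L Q : ℝ) - 1) * height κ x := by
      field_simp
    rw [h3] at h2
    linarith
  refine ⟨Q, hQ1, ?_, h1⟩
  have hne := veronese_ne (m := m) h hx
  have hle : Submodule.span L {veronese m x} ≤ Q := by
    rw [Submodule.span_le, Set.singleton_subset_iff]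
    exact hQ1
  have h4 : 1 ≤ finrank L Q := by
    have := Submodule.finrank_mono hle
    rwa [finrank_span_singleton (K := L) hne] at this
  by_contra h5
  have h6 : finrank L Q = 1 := by omega
  have h7 : Submodule.span L {veronese m x} = Q :=
    Submodule.eq_of_le_of_finrank_le hle (by rw [h6, finrank_span_singleton hne])
  have h8 := le_ht_veronese (m := m) h hx
  rw [h7] at h8
  have h9 : (m * height κ x : ℝ) ≤ subHeight κ Q := by
    change m * height κ x ≤ subHeight κ Q at h8
    exact_mod_cast h8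
  rw [h6] at hQ2
  simp only [Nat.cast_one, sub_self, zero_mul, add_zero] at hQ2
  linarith

end Height

end Pool.Agent.Lib.MP_44a246_ntJ
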