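import Mathlib
import Pool.Agent.Lib.MP_44a246_nt.PolyMain2
import Pool.Agent.Lib.MP_44a246_ntM.M5
import Pool.Agent.Lib.MP_44a246_ntJ.J5
import Pool.Agent.Lib.MP_44a246_ntJ.J7

/-!
The main inequality with slopes, for polynomials.
-/

namespace Pool.Agent.Lib.MP_44a246_ntJ

open Pool.Agent.Lib.MP_e52354_nt Pool.Agent.Lib.MP_44a246_nt Pool.Agent.Lib.MP_44a246_ntM
  Pool.Agent.Lib.MP_44a246_ntS Pool.Agent.Lib.MP_44a246_ntL WithZero Module

universe u v w

section Main2

variable {k₀ k : Type*} {κ : Type u} {K : Type v} [Field k₀] [CharZero k₀] [Field k] [Field κ]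
  [IsAlgClosed κ] [CharZero κ] [Field K]
  [Algebra k₀ κ] [Algebra κ K] [Algebra k₀ K] [IsScalarTower k₀ κ K]
  [Algebra k₀ k] [Algebra k K] [IsScalarTower k₀ k K] [FinTrdeg k₀ k]

variable {n : ℕ} {ι : Type*} [Fintype ι] [DecidableEq ι]

include k₀ in
theorem poly_U [Algebra (Polynomial κ) K] [IsScalarTower κ (Polynomial κ) K]
    [Algebra (RatFunc κ) K] [IsScalarTower (Polynomial κ) (RatFunc κ) K]
    [Algebra (Rinf κ) K] [IsScalarTower (Rinf κ) (RatFunc κ) K]
    [FiniteDimensional (RatFunc κ) K] (hK : IsFF κ K)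
    (ht : Transcendental κ (algebraMap (Polynomial κ) K Polynomial.X))
    (halg : Algebra.IsAlgebraic
      (IntermediateField.adjoin κ {algebraMap (Polynomial κ) K Polynomial.X}) K)
    (d : ι → ℕ) (F : ι → MvPolynomial (Fin (n + 1)) K)
    (hF : ∀ i, (F i).IsHomogeneous (d i))
    (hgen : AlgebraicIndependent k
      (fun θ : Σ i, {I : Fin (n + 1) →₀ ℕ // I.degree = d i} => (F θ.1).coeff θ.2.1))
    (S : Set (Place κ K)) (hS : S.Finite) :
    ∃ C : ℕ, ∀ (L : Type w) [Field L] [Algebra K L] [FiniteDimensional K L] [Algebra κ L]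
      [IsScalarTower κ K L] [Algebra k L] [IsScalarTower k K L]
      (x : Fin (n + 1) → L), x ≠ 0 → ∀ (Θ Θ₁ : Submodule L (Fin (n + 1) → L)),
      Θ = tangent (Set.range (algebraMap k L)) x →
      Θ₁ = tangent (Set.range (algebraMap k L) ∪
        {y | ∃ i I, y = algebraMap K L ((F i).coeff I)}) x →
      IsFF κ L ∧ ∃ U : Submodule L (Row n d → L), (∀ i, xiB d x i ∈ U) ∧
      finrank L U + finrank L Θ₁ + Nat.card {i // MvPolynomial.aeval x (F i) = 0} ≤
        finrank L Θ + Fintype.card ι ∧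
      subHeight κ Θ + MP_44a246_ntS.ht κ U ≤ (finrank L Θ : ℤ) * height κ x +
        (truncCount κ F d S x : ℤ) + (ramDeg κ L K : ℤ) + (C : ℤ) * (finrank K L : ℤ) := by
  classical
  obtain ⟨s, hs0, hs⟩ := exists_nonunit S hS
  have hc : AlgebraicIndependent k (fun θ : {θ : ι × Expo n // θ.2 ∈
      expo (Fin (n + 1)) (d θ.1)} => (fun i I => (F i).coeff I) θ.1.1 θ.1.2) := by
    have h1 : (fun θ : {θ : ι × Expo n // θ.2 ∈ expo (Fin (n + 1)) (d θ.1)} =>
        (fun i I => (F i).coeff I) θ.1.1 θ.1.2) =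
        (fun θ : Σ i, {I : Fin (n + 1) →₀ ℕ // I.degree = d i} => (F θ.1).coeff θ.2.1) ∘
        (fun θ : {θ : ι × Expo n // θ.2 ∈ expo (Fin (n + 1)) (d θ.1)} =>
          ⟨θ.1.1, ⟨θ.1.2, mem_expo.mp θ.2⟩⟩) := rfl
    rw [h1]
    apply hgen.comp
    rintro ⟨⟨i, I⟩, h⟩ ⟨⟨i', I'⟩, h'⟩ heq
    simp only [Sigma.mk.injEq] at heq
    obtain ⟨h1, h2⟩ := heq
    subst h1
    simp only [heq_eq_eq, Subtype.mk.injEq] at h2
    subst h2
    rfl
  obtain ⟨C, hC⟩ := main_U (k₀ := k₀) (k := k) (κ := κ) (K := K) (n := n) (d := d)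
    (aK := fun i I => (F i).coeff I) hK ht halg hc hs0
  refine ⟨C, ?_⟩
  intro L _ _ _ _ _ _ _ x hx Θ Θ₁ hΘ hΘ₁
  let iX : Algebra (Polynomial κ) L :=
    ((algebraMap K L).comp (algebraMap (Polynomial κ) K)).toAlgebra
  let iK : Algebra (RatFunc κ) L := ((algebraMap K L).comp (algebraMap (RatFunc κ) K)).toAlgebra
  let iR : Algebra (Rinf κ) L := ((algebraMap K L).comp (algebraMap (Rinf κ) K)).toAlgebra
  have t1 : IsScalarTower (Polynomial κ) K L := IsScalarTower.of_algebraMap_eq' rfl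
  have t2 : IsScalarTower (RatFunc κ) K L := IsScalarTower.of_algebraMap_eq' rfl
  have t3 : IsScalarTower (Rinf κ) K L := IsScalarTower.of_algebraMap_eq' rfl
  have t4 : IsScalarTower κ (Polynomial κ) L := IsScalarTower.of_algebraMap_eq fun u => by
    rw [IsScalarTower.algebraMap_apply κ K L, IsScalarTower.algebraMap_apply κ (Polynomial κ) K]
    rfl
  have t5 : IsScalarTower (Polynomial κ) (RatFunc κ) L := IsScalarTower.of_algebraMap_eq fun u => by
    rw [IsScalarTower.algebraMap_apply (Polynomial κ) K L,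
      IsScalarTower.algebraMap_apply (Polynomial κ) (RatFunc κ) K]
    rfl
  have t6 : IsScalarTower (Rinf κ) (RatFunc κ) L := IsScalarTower.of_algebraMap_eq fun u => by
    rw [IsScalarTower.algebraMap_apply (Rinf κ) K L,
      IsScalarTower.algebraMap_apply (Rinf κ) (RatFunc κ) K]
    rfl
  have hfin : FiniteDimensional (RatFunc κ) L := FiniteDimensional.trans (RatFunc κ) K L
  have hyv : ∀ i, yv d (fun i I => algebraMap K L ((F i).coeff I)) x i =
      MvPolynomial.aeval x (F i) := fun i => (aeval_eq_Fval (F i) (hF i) x).symm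
  refine ⟨hK.of_finite, ?_⟩
  obtain ⟨U, hU1, hU2, hU3⟩ := hC L x hx Θ Θ₁ hΘ (by
      rw [hΘ₁]
      refine tangent_congr fun E => ?_
      constructor
      · intro h y hy
        rcases hy with hy | ⟨i, I, hI, rfl⟩
        · exact h y (Or.inl hy)
        · exact h _ (Or.inr ⟨i, I, rfl⟩)
      · intro h y hy
        rcases hy with hy | ⟨i, I, rfl⟩
        · exact h y (Or.inl hy)
        · by_cases hI : I ∈ expo (Fin (n + 1)) (d i)
          · exact h _ (Or.inr ⟨i, I, hI, rfl⟩)
          · have h2 : (F i).coeff I = 0 := by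
              by_contra h3
              apply hI
              rw [mem_expo]
              have h4 := hF i h3
              rw [← h4, Finsupp.degree_eq_weight_one]
              rfl
            rw [h2, map_zero, map_zero])
  -- comparison of the counting functions
  have htr : {w : Place κ L | (∀ v ∈ S, ¬ (w.1.comap (algebraMap K L)).IsEquiv v.1) ∧
      ∃ i, MvPolynomial.aeval x (F i) ≠ 0 ∧
        w.1 (MvPolynomial.aeval x (F i)) < vmax w.1 x ^ d i}.Finite := by
    have hfin : ((⋃ j ∈ Finset.univ.filter (fun j => MvPolynomial.aeval x (F j) ≠ 0),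
        {v : Place κ L | v.1 (MvPolynomial.aeval x (F j)) ≠ 1}) ∪
        {v : Place κ L | vmax v.1 x ≠ 1}).Finite := by
      refine Set.Finite.union (Set.Finite.biUnion (Finset.finite_toSet _) fun j hj => ?_)
        (vmax_finite hx)
      have hj' : MvPolynomial.aeval x (F j) ≠ 0 :=
        (Finset.mem_filter.mp (Finset.mem_coe.mp hj)).2
      exact place_finite hj'
    refine hfin.subset fun v hv => ?_
    obtain ⟨-, j, hj, hlt⟩ := hv
    by_contra hcon
    simp only [Set.mem_union, Set.mem_iUnion, not_or, not_exists, Finset.mem_filter] at hcon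
    obtain ⟨hc1, hc2⟩ := hcon
    have h1 : v.1 (MvPolynomial.aeval x (F j)) = 1 := by
      by_contra h2
      exact hc1 j ⟨Finset.mem_univ _, hj⟩ h2
    have h2 : vmax v.1 x = 1 := by
      by_contra h3
      exact hc2 h3
    rw [h2, one_pow] at hlt
    exact absurd h1 hlt.ne
  have hsub : truncSet (κ := κ) d (fun i I => (F i).coeff I) s x ⊆
      {w : Place κ L | (∀ v ∈ S, ¬ (w.1.comap (algebraMap K L)).IsEquiv v.1) ∧
      ∃ i, MvPolynomial.aeval x (F i) ≠ 0 ∧
        w.1 (MvPolynomial.aeval x (F i)) < vmax w.1 x ^ d i} := by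
    rintro w ⟨hw1, j, hj1, hj2⟩
    refine ⟨fun v hv hequiv => ?_, j, ?_, ?_⟩
    · refine hs v hv ?_
      exact (hequiv.eq_one_iff_eq_one).mp hw1
    · rw [← hyv]; exact hj1
    · rw [← hyv]; exact hj2
  have hN : ((truncSet (κ := κ) d (fun i I => (F i).coeff I) s x).ncard : ℤ) ≤
      (truncCount κ F d S x : ℤ) := by
    exact_mod_cast Set.ncard_le_ncard hsub htr
  have hq : Nat.card {i // yv d (fun i I => algebraMap K L ((F i).coeff I)) x i = 0} =
      Nat.card {i // MvPolynomial.aeval x (F i) = 0} := by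
    simp only [hyv]
  rw [hq] at hU2
  exact ⟨U, hU1, hU2, by linarith⟩

end Main2

section Main

/-- The truncated second main theorem for forms generic over a field `k` of finite transcendence
degree over a field of constants, with slopes. -/
theorem main_J {k₀ k : Type*} {κ : Type u} {K : Type v} [Field k₀] [CharZero k₀] [Field k]
    [Field κ] [IsAlgClosed κ] [Field K] [Algebra k₀ κ] [Algebra κ K] [Algebra k₀ K]
    [IsScalarTower k₀ κ K] [Algebra k₀ k] [Algebra k K] [IsScalarTower k₀ k K] [FinTrdeg k₀ k]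
    {t : K} (ht : Transcendental κ t) [FiniteDimensional (IntermediateField.adjoin κ {t}) K]
    {n : ℕ} {ι : Type*} [Fintype ι] (d : ι → ℕ) (F : ι → MvPolynomial (Fin (n + 1)) K)
    (hF : ∀ i, (F i).IsHomogeneous (d i)) (hgen : GenericCoeffs k d F)
    (S : Set (Place κ K)) (hS : S.Finite) :
    ∃ C : ℕ, ∀ (L : Type w) [Field L] [Algebra K L] [FiniteDimensional K L] [Algebra κ L]
      [IsScalarTower κ K L] [Algebra k L] [IsScalarTower k K L]
      (x : Fin (n + 1) → L), x ≠ 0 → ∀ (Θ Θ' : Submodule L (Fin (n + 1) → L)) (a b q h N : ℤ),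
      Θ = tangent (Set.range (algebraMap k L)) x → Θ' = tangent (coeffSet k L F) x →
      a = finrank L Θ → b = finrank L Θ' → q = vanCard F x → h = height κ x →
      N = truncCount κ F d S x + ramDeg κ L K + C * finrank K L →
      b + q ≤ a ∧ ∀ m : ℕ, 1 ≤ m → (∀ i, m ≤ d i) →
        (∀ ν : ℝ, 0 ≤ ν →
          (∀ Q : Submodule L (Sym (Fin (n + 1)) m → L), veronese m x ∈ Q →
            (m * h : ℝ) ≤ subHeight κ Q + (finrank L Q - 1) * ν) →
          ((∑ i, d i - a) * h + subHeight κ Θ : ℝ) ≤ N + (a - b - q) * ν) ∧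
        ∀ (r : ℕ) (T : ℝ), Algebra.trdeg k (pointField k x) ≤ r → 0 < T →
          (T * (∑ i, d i - r - 1) * h : ℝ) ≤ T * N + (r - q) * h ∨
          ∃ Q : Submodule L (Sym (Fin (n + 1)) m → L), veronese m x ∈ Q ∧ 2 ≤ finrank L Q ∧
            T * subHeight κ Q < (T * m - (finrank L Q - 1)) * h := by
  classical
  have hcκ : CharZero κ := charZero_of_injective_algebraMap (algebraMap k₀ κ).injective
  have hck : CharZero k := charZero_of_injective_algebraMap (algebraMap k₀ k).injective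
  have hK : IsFF κ K := ⟨t, ht, inferInstance⟩
  refine with_instances ht ?_
  intro _ _ _ _ _ _ _ h1 h2
  obtain ⟨C, hC⟩ := poly_U (k₀ := k₀) hK h1 h2 d F hF hgen S hS
  refine ⟨C, ?_⟩
  intro L _ _ _ _ _ _ _ x hx Θ Θ' a b q h N hΘ hΘ' ha hb hq hh hN
  obtain ⟨hL, U, hU1, hU2, hU3⟩ := hC L x hx Θ Θ' hΘ hΘ'
  have hh0 : 0 ≤ h := by rw [hh]; exact hL.height_nonneg hx
  have hΘ0 : 0 ≤ subHeight κ Θ := ht_nonneg hL Θ
  have hb1 : (1 : ℤ) ≤ b := by
    rw [hb, hΘ']
    exact_mod_cast one_le_finrank_tangent hx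
  have hcard : Fintype.card ι ≤ finrank L U := by
    have h3 := Submodule.finrank_mono (R := L) (s := Submodule.span L (Set.range (xiB d x)))
      (t := U) (Submodule.span_le.mpr (by rintro _ ⟨i, rfl⟩; exact hU1 i))
    rwa [finrank_span_eq_card (xiB_lin hx)] at h3
  have h8 : b + q ≤ a := by
    rw [hb, ha, hq]
    unfold vanCard
    have : finrank L Θ' + Nat.card {i // MvPolynomial.aeval x (F i) = 0} ≤ finrank L Θ := by omega
    exact_mod_cast this
  have hdU : ((finrank L U : ℝ) - Fintype.card ι) ≤ a - b - q := by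
    have h3 : (finrank L U : ℤ) - Fintype.card ι ≤ a - b - q := by
      rw [hb, ha, hq]
      unfold vanCard
      push_cast
      have : ((finrank L U + finrank L Θ' + Nat.card {i // MvPolynomial.aeval x (F i) = 0} : ℕ) : ℤ)
          ≤ ((finrank L Θ + Fintype.card ι : ℕ) : ℤ) := by exact_mod_cast hU2
      push_cast at this
      linarith
    exact_mod_cast h3
  have hU3' : (subHeight κ Θ : ℝ) + MP_44a246_ntS.ht κ U ≤ a * h + N := by
    have h3 : subHeight κ Θ + MP_44a246_ntS.ht κ U ≤ a * h + N := by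
      rw [ha, hh, hN]; linarith
    exact_mod_cast h3
  have key : ∀ m : ℕ, 1 ≤ m → (∀ i, m ≤ d i) → ∀ ν : ℝ, 0 ≤ ν →
      (∀ Q : Submodule L (Sym (Fin (n + 1)) m → L), veronese m x ∈ Q →
        (m * h : ℝ) ≤ subHeight κ Q + (finrank L Q - 1) * ν) →
      ((∑ i, d i - a) * h + subHeight κ Θ : ℝ) ≤ N + (a - b - q) * ν := by
    intro m hm hmd ν hν0 hν
    have h3 := slope_bound' hL hm hmd hx (ν := ν) (by rw [← hh]; exact hν) U hU1
    rw [← hh] at h3
    have h4 : ((finrank L U : ℝ) - Fintype.card ι) * ν ≤ (a - b - q) * ν :=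
      mul_le_mul_of_nonneg_right hdU hν0
    push_cast at h3 ⊢
    linarith
  refine ⟨h8, fun m hm hmd => ⟨key m hm hmd, ?_⟩⟩
  intro r T hr hT
  rcases slope_or (m := m) hL hx hT with h3 | h3
  · left
    have hh0' : (0 : ℝ) ≤ h := by exact_mod_cast hh0
    have h4 := key m hm hmd (h / T) (div_nonneg hh0' hT.le) (by rw [hh]; exact h3)
    have hΘr : a ≤ r + 1 := by
      rw [ha, hΘ]
      exact_mod_cast finrank_tangent_le hx hr
    have hΘr' : (a : ℝ) ≤ r + 1 := by exact_mod_cast hΘr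
    have hΘ0' : (0 : ℝ) ≤ subHeight κ Θ := by exact_mod_cast hΘ0
    have hb1' : (1 : ℝ) ≤ b := by exact_mod_cast hb1
    have h5 : T * ((∑ i, d i - a) * h + subHeight κ Θ : ℝ) ≤ T * N + (a - b - q) * h := by
      have := mul_le_mul_of_nonneg_left h4 hT.le
      have h6 : T * (N + (a - b - q) * (h / T) : ℝ) = T * N + (a - b - q) * h := by
        field_simp
      linarith
    have h6 : 0 ≤ T * ((r + 1 - a : ℝ) * h) :=
      mul_nonneg hT.le (mul_nonneg (by linarith) hh0')
    have h7 : 0 ≤ ((r + 1 - a : ℝ) + (b - 1)) * h :=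
      mul_nonneg (by linarith) hh0'
    have h9 : 0 ≤ T * (subHeight κ Θ : ℝ) := mul_nonneg hT.le hΘ0'
    push_cast at h5 ⊢
    nlinarith [h5, h6, h7, h9]
  · right
    rw [hh]
    exact h3

end Main

end Pool.Agent.Lib.MP_44a246_ntJ
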