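import Mathlib
import Pool.Agent.Lib.MP_44a246_ntM.M2
import Pool.Agent.Lib.MP_44a246_ntJ.JD1

/-!
Tangent spaces over a subfield `k` of `K` of finite transcendence degree over the constants, and
their description by a family of derivations, when some coefficients are dependent.
-/

namespace Pool.Agent.Lib.MP_44a246_ntJ

open Pool.Agent.Lib.MP_e52354_nt Pool.Agent.Lib.MP_44a246_nt Pool.Agent.Lib.MP_44a246_ntM

section Compare

variable {k₀ k K L : Type*} [Field k₀] [CharZero k₀] [Field k] [Field K] [Field L] [Algebra k₀ K]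
  [Algebra k₀ k] [Algebra k L] [Algebra k₀ L] [IsScalarTower k₀ k L] [Algebra K L]
  [IsScalarTower k₀ K L] [Algebra.IsAlgebraic K L]

variable {n : ℕ} {ι : Type*} [Finite ι] [DecidableEq ι] {d : ι → ℕ} {aK : ι → Expo n → K}
  {B : Type*} [DecidableEq B] {J : ι → Finset (Expo n)}

theorem span_eq_tangent4 {z : B → K} (hJ : ∀ i, J i ⊆ expo (Fin (n + 1)) (d i))
    (hz : Algebra.IsAlgebraic (IntermediateField.adjoin k₀ (Set.range z)) K)
    {D : ι → Expo n → Derivation ℤ L L} {E : B → Derivation ℤ L L}
    {m : ℕ} {D' : Fin m → Derivation ℤ L L} {c' : Fin m → k}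
    (hD0 : ∀ i I (c : k), D i I (algebraMap k L c) = 0)
    (hE0 : ∀ b (c : k), E b (algebraMap k L c) = 0)
    (hD'0 : ∀ j (c : k₀), D' j (algebraMap k₀ L c) = 0)
    (hD'a : ∀ j i, ∀ I ∈ J i, D' j (algebraMap K L (aK i I)) = 0)
    (hD'c : ∀ j j', D' j (algebraMap k L (c' j')) = if j = j' then 1 else 0)
    (hD : DualOn J (fun i I => algebraMap K L (aK i I)) D)
    (hE : ∀ b i, ∀ I ∈ expo (Fin (n + 1)) (d i), E b (algebraMap K L (aK i I)) = 0)
    (e : B → ι → Expo n → L) (e' : B → Fin m → L)
    (hF : ∀ b b', E b (algebraMap K L (z b')) + ∑ᶠ i, ∑ I ∈ J i,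
      e b i I * D i I (algebraMap K L (z b')) +
      ∑ j, e' b j * D' j (algebraMap K L (z b')) = if b = b' then 1 else 0)
    (x : Fin (n + 1) → L) :
    spanX2 d D E x = tangent (Set.range (algebraMap k L)) x ∧
      spanX1 E x = tangent (Set.range (algebraMap k L) ∪ coefSet L d aK) x := by
  classical
  have := Fintype.ofFinite ι
  simp only [finsum_eq_sum_of_fintype] at hF
  have hk₀ : ∀ c : k₀, algebraMap k₀ L c = algebraMap k L (algebraMap k₀ k c) := fun c =>
    IsScalarTower.algebraMap_apply k₀ k L c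
  -- the auxiliary derivations
  let F : B → Derivation ℤ L L := fun b =>
    E b + ∑ i, ∑ I ∈ J i, e b i I • D i I + ∑ j, e' b j • D' j
  have hFy : ∀ b y, F b y = E b y + ∑ i, ∑ I ∈ J i, e b i I * D i I y +
      ∑ j, e' b j * D' j y := by
    intro b y
    show (Derivation.coeFnAddMonoidHom (E b + ∑ i, ∑ I ∈ J i,
      e b i I • D i I + ∑ j, e' b j • D' j)) y = _
    rw [map_add, map_add, map_sum, map_sum, Pi.add_apply, Pi.add_apply, Finset.sum_apply,
      Finset.sum_apply]
    simp only [map_sum, Finset.sum_apply]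
    rfl
  have hFc : ∀ b j, ∀ I' ∈ J j, F b (algebraMap K L (aK j I')) = e b j I' := by
    intro b j I' hI'
    have h5 : ∑ j', e' b j' * D' j' (algebraMap K L (aK j I')) = 0 :=
      Finset.sum_eq_zero fun j' _ => by rw [hD'a j' j I' hI', mul_zero]
    rw [hFy, hE b j I' (hJ j hI'), zero_add, h5, add_zero, Finset.sum_eq_single j]
    · rw [Finset.sum_eq_single I']
      · rw [hD j I' hI' j I' hI', if_pos ⟨rfl, rfl⟩, mul_one]
      · intro I hI hIJ
        rw [hD j I hI j I' hI', if_neg (fun h => hIJ h.2), mul_zero]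
      · intro h; exact absurd hI' h
    · intro i _ hij
      refine Finset.sum_eq_zero fun I hI => ?_
      rw [hD i I hI j I' hI', if_neg (fun h => hij h.1), mul_zero]
    · intro h; exact absurd (Finset.mem_univ _) h
  have hFc' : ∀ b j, F b (algebraMap k L (c' j)) = e' b j := by
    intro b j
    rw [hFy, hE0]
    simp only [hD0, mul_zero, Finset.sum_const_zero, zero_add]
    rw [Finset.sum_eq_single j]
    · rw [hD'c, if_pos rfl, mul_one]
    · intro j' _ hj'
      rw [hD'c, if_neg hj', mul_zero]
    · intro h; exact absurd (Finset.mem_univ _) h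
  have hF0 : ∀ b (c : k₀), F b (algebraMap k₀ L c) = 0 := by
    intro b c
    rw [hFy]
    simp only [hD'0, mul_zero, Finset.sum_const_zero, add_zero]
    rw [hk₀ c, hE0]
    simp [hD0]
  have hFz : ∀ b b', F b (algebraMap K L (z b')) = if b = b' then 1 else 0 := by
    intro b b'
    rw [hFy]
    exact hF b b'
  let Y : Finset L := (Finset.univ.image x ∪
    Finset.univ.biUnion fun i => (expo (Fin (n + 1)) (d i)).image fun I => algebraMap K L (aK i I))
    ∪ Finset.univ.image fun j => algebraMap k L (c' j)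
  have hYx : ∀ k, x k ∈ Y := fun k => Finset.mem_union_left _
    (Finset.mem_union_left _ (Finset.mem_image_of_mem _ (Finset.mem_univ k)))
  have hYa : ∀ i, ∀ I ∈ expo (Fin (n + 1)) (d i), algebraMap K L (aK i I) ∈ Y := fun i I hI =>
    Finset.mem_union_left _ (Finset.mem_union_right _ (Finset.mem_biUnion.mpr
      ⟨i, Finset.mem_univ _, Finset.mem_image_of_mem _ hI⟩))
  have hYc : ∀ j, algebraMap k L (c' j) ∈ Y := fun j => Finset.mem_union_right _
    (Finset.mem_image_of_mem (fun j => algebraMap k L (c' j)) (Finset.mem_univ j))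
  -- the coefficients of `D' j`
  have hkill : ∀ (G : Derivation ℤ L L) (s : Finset B),
      (∀ c : k, G (algebraMap k L c) = 0) →
      (∀ y ∈ Y, G y = ∑ b ∈ s, G (algebraMap K L (z b)) * F b y) →
      ∀ y, ∑ b ∈ s, G (algebraMap K L (z b)) * ∑ j, e' b j * D' j y = 0 := by
    intro G s hG hs y
    simp only [Finset.mul_sum]
    rw [Finset.sum_comm]
    refine Finset.sum_eq_zero fun j _ => ?_
    have h1 := hs _ (hYc j)
    rw [hG] at h1
    simp only [hFc'] at h1
    have h2 : ∀ b ∈ s, G (algebraMap K L (z b)) * (e' b j * D' j y) =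
        (G (algebraMap K L (z b)) * e' b j) * D' j y := fun b _ => by ring
    rw [Finset.sum_congr rfl h2, ← Finset.sum_mul, ← h1, zero_mul]
  constructor
  · apply le_antisymm
    · unfold spanX2
      rw [Submodule.span_le]
      rintro w (rfl | (⟨i, I, hI, rfl⟩ | ⟨b, rfl⟩))
      · exact ⟨1, 0, fun a _ => rfl, fun k => by simp⟩
      · refine ⟨0, D i I, ?_, fun k => by simp⟩
        rintro _ ⟨c, rfl⟩
        exact hD0 i I c
      · refine ⟨0, E b, ?_, fun k => by simp⟩
        rintro _ ⟨c, rfl⟩
        exact hE0 b c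
    · rintro w ⟨c, G, hG, hw⟩
      have hGk : ∀ c : k, G (algebraMap k L c) = 0 := fun c => hG _ ⟨c, rfl⟩
      obtain ⟨s, hs⟩ := density hz F hF0 hFz G (fun c => by rw [hk₀]; exact hGk _) Y
      have hk := hkill G s hGk hs
      have h1 : w = c • x + ∑ b ∈ s, G (algebraMap K L (z b)) • ((fun k => E b (x k)) +
          ∑ i, ∑ I ∈ J i, e b i I • (fun k => D i I (x k))) := by
        funext k
        rw [hw k, hs _ (hYx k)]
        have h3 := hk (x k)
        simp only [hFy, Pi.add_apply, Pi.smul_apply, smul_eq_mul, Finset.sum_apply, mul_add,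
          Finset.sum_add_distrib] at h3 ⊢
        rw [h3, add_zero]
      rw [h1]
      refine Submodule.add_mem _ (Submodule.smul_mem _ _ (Submodule.subset_span
        (Set.mem_insert _ _))) (Submodule.sum_mem _ fun b _ => Submodule.smul_mem _ _
        (Submodule.add_mem _ (Submodule.subset_span (Set.mem_insert_of_mem _
        (Or.inr ⟨b, rfl⟩))) (Submodule.sum_mem _ fun i _ => Submodule.sum_mem _ fun I hI =>
        Submodule.smul_mem _ _ (Submodule.subset_span (Set.mem_insert_of_mem _
        (Or.inl ⟨i, I, hJ i hI, rfl⟩))))))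
  · apply le_antisymm
    · unfold spanX1
      rw [Submodule.span_le]
      rintro w (rfl | ⟨b, rfl⟩)
      · exact ⟨1, 0, fun a _ => rfl, fun k => by simp⟩
      · refine ⟨0, E b, ?_, fun k => by simp⟩
        rintro _ (⟨c, rfl⟩ | ⟨i, I, hI, rfl⟩)
        · exact hE0 b c
        · exact hE b i I hI
    · rintro w ⟨c, G, hG, hw⟩
      have hGk : ∀ c : k, G (algebraMap k L c) = 0 := fun c => hG _ (Or.inl ⟨c, rfl⟩)
      obtain ⟨s, hs⟩ := density hz F hF0 hFz G (fun c => by rw [hk₀]; exact hGk _) Y
      have hk := hkill G s hGk hs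
      have hcoef : ∀ i, ∀ I ∈ J i, ∑ b ∈ s, G (algebraMap K L (z b)) * e b i I = 0 := by
        intro i I hI
        have h1 := hs _ (hYa i I (hJ i hI))
        rw [hG _ (Or.inr ⟨i, I, hJ i hI, rfl⟩)] at h1
        rw [h1]
        exact Finset.sum_congr rfl fun b _ => by rw [hFc b i I hI]
      have h1 : w = c • x + ∑ b ∈ s, G (algebraMap K L (z b)) • (fun k => E b (x k)) := by
        funext k
        rw [hw k, hs _ (hYx k)]
        have h3 := hk (x k)
        simp only [hFy, Pi.add_apply, Pi.smul_apply, smul_eq_mul, Finset.sum_apply, mul_add,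
          Finset.sum_add_distrib] at h3 ⊢
        have h2 : ∑ b ∈ s, G (algebraMap K L (z b)) * ∑ i, ∑ I ∈ J i,
            e b i I * D i I (x k) = 0 := by
          simp only [Finset.mul_sum]
          rw [Finset.sum_comm]
          refine Finset.sum_eq_zero fun i _ => ?_
          rw [Finset.sum_comm]
          refine Finset.sum_eq_zero fun I hI => ?_
          have : ∀ b ∈ s, G (algebraMap K L (z b)) * (e b i I * D i I (x k)) =
              (G (algebraMap K L (z b)) * e b i I) * D i I (x k) := fun b _ => by ring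
          rw [Finset.sum_congr rfl this, ← Finset.sum_mul, hcoef i I hI, zero_mul]
        rw [h2, h3, add_zero, add_zero]
      rw [h1]
      exact Submodule.add_mem _ (Submodule.smul_mem _ _ (Submodule.subset_span
        (Set.mem_insert _ _))) (Submodule.sum_mem _ fun b _ => Submodule.smul_mem _ _
        (Submodule.subset_span (Set.mem_insert_of_mem _ ⟨b, rfl⟩)))

end Compare

end Pool.Agent.Lib.MP_44a246_ntJ
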