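import Mathlib
import Pool.Agent.Lib.MP_44a246_ntL.LFF
import Pool.Agent.Lib.MP_44a246_ntS.SB2c
import Pool.Agent.Lib.MP_44a246_ntJ.JD1
import Pool.Agent.Lib.MP_44a246_ntJ.JD3

/-!
The evaluations at a point and the space of the rows, when some coefficients are dependent.
-/

namespace Pool.Agent.Lib.MP_44a246_ntJ

open Pool.Agent.Lib.MP_e52354_nt Pool.Agent.Lib.MP_44a246_nt
  Pool.Agent.Lib.MP_44a246_ntS Pool.Agent.Lib.MP_44a246_ntL WithZero Module

section Kap

variable {n : ℕ} {ι : Type*} [Fintype ι] [DecidableEq ι] {M : Type*} [Field M]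
  {d : ι → ℕ} {J : ι → Finset (Expo n)}

/-- the relations between the coefficients -/
noncomputable def kap (a : ι → Expo n → M) (D : ι → Expo n → Derivation ℤ M M) (θ' : Row n d) :
    Row n d → M :=
  fun θ => (if θ = θ' then 1 else 0) - D θ.1 θ.2.1 (a θ'.1 θ'.2.1)

theorem psiB_eq (a : ι → Expo n → M) (D : ι → Expo n → Derivation ℤ M M) (x : Fin (n + 1) → M)
    (i : ι) (θ : Row n d) :
    psiB d a D x i θ = ∑ θ' : Row n d, D θ.1 θ.2.1 (a θ'.1 θ'.2.1) * xiB d x i θ' := by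
  unfold psiB
  rw [Fintype.sum_sigma, Finset.sum_eq_single i]
  · rw [← Finset.sum_coe_sort]
    refine Finset.sum_congr rfl fun I _ => ?_
    simp only [xiB, if_true]
  · intro j _ hj
    refine Finset.sum_eq_zero fun I _ => ?_
    simp only [xiB, if_neg hj, mul_zero]
  · intro h
    exact absurd (Finset.mem_univ _) h

theorem dual_eq {a : ι → Expo n → M} {D : ι → Expo n → Derivation ℤ M M} (hD : DualOn J a D)
    (hDn : ∀ i, ∀ I ∉ J i, D i I = 0) (θ θ' : Row n d) (h : θ'.2.1 ∈ J θ'.1) :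
    D θ.1 θ.2.1 (a θ'.1 θ'.2.1) = if θ = θ' then 1 else 0 := by
  by_cases hθ : θ.2.1 ∈ J θ.1
  · rw [hD θ.1 θ.2.1 hθ θ'.1 θ'.2.1 h]
    refine if_congr ?_ rfl rfl
    constructor
    · rcases θ with ⟨i, I, hI⟩
      rcases θ' with ⟨j, I', hI'⟩
      rintro ⟨h1, h2⟩
      simp only at h1 h2
      subst h1
      subst h2
      rfl
    · rintro rfl
      exact ⟨rfl, rfl⟩
  · rw [hDn _ _ hθ, if_neg]
    · rfl
    · rintro rfl
      exact hθ h

theorem xiB_eq {a : ι → Expo n → M} {D : ι → Expo n → Derivation ℤ M M} (hD : DualOn J a D)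
    (hDn : ∀ i, ∀ I ∉ J i, D i I = 0) (x : Fin (n + 1) → M) (i : ι) :
    xiB d x i = psiB d a D x i +
      ∑ θ' : {θ : Row n d // θ.2.1 ∉ J θ.1}, xiB d x i θ'.1 • kap a D θ'.1 := by
  classical
  funext θ
  have h1 : xiB d x i θ = ∑ θ' : Row n d, (if θ = θ' then 1 else 0) * xiB d x i θ' := by
    simp
  have h2 := Fintype.sum_subtype_add_sum_subtype (fun θ : Row n d => θ.2.1 ∈ J θ.1)
    (fun θ' : Row n d => (if θ = θ' then 1 else 0) * xiB d x i θ')
  have h3 := Fintype.sum_subtype_add_sum_subtype (fun θ : Row n d => θ.2.1 ∈ J θ.1)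
    (fun θ' : Row n d => D θ.1 θ.2.1 (a θ'.1 θ'.2.1) * xiB d x i θ')
  have h4 : ∑ θ' : {θ : Row n d // θ.2.1 ∈ J θ.1},
      D θ.1 θ.2.1 (a θ'.1.1 θ'.1.2.1) * xiB d x i θ'.1 =
      ∑ θ' : {θ : Row n d // θ.2.1 ∈ J θ.1}, (if θ = θ'.1 then 1 else 0) * xiB d x i θ'.1 :=
    Finset.sum_congr rfl fun θ' _ => by rw [dual_eq hD hDn θ θ'.1 θ'.2]
  rw [Pi.add_apply, psiB_eq, Finset.sum_apply, ← h3, h4]
  conv_lhs => rw [h1, ← h2]
  rw [add_assoc, ← Finset.sum_add_distrib]
  congr 1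
  refine Finset.sum_congr rfl fun θ' _ => ?_
  simp only [Pi.smul_apply, smul_eq_mul, kap]
  ring

theorem kap_ne {a : ι → Expo n → M} {D : ι → Expo n → Derivation ℤ M M}
    (hDn : ∀ i, ∀ I ∉ J i, D i I = 0) (θ' : Row n d) (h : θ'.2.1 ∉ J θ'.1) :
    (kap a D θ' : Row n d → M) ≠ 0 := by
  intro h0
  have h1 := congrFun h0 θ'
  simp only [kap, hDn _ _ h, if_true, Pi.zero_apply] at h1
  change (1 : M) - 0 = 0 at h1
  rw [sub_zero] at h1
  exact one_ne_zero h1

end Kap

section Height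

variable {κ K L : Type*} [Field κ] [IsAlgClosed κ] [CharZero κ] [Field K] [Algebra κ K]
  [Field L] [Algebra κ L] [Algebra K L] [IsScalarTower κ K L] [FiniteDimensional K L]
  {n : ℕ} {ι : Type*} [Fintype ι] [DecidableEq ι] {d : ι → ℕ} {J : ι → Finset (Expo n)}

/-- the space with the relations between the coefficients -/
theorem exists_U_of_rows (h : IsFF κ L) {aK : ι → Expo n → K}
    {DK : ι → Expo n → Derivation ℤ K K} {DL : ι → Expo n → Derivation ℤ L L}
    (hext : ∀ i I y, DL i I (algebraMap K L y) = algebraMap K L (DK i I y))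
    (hD : DualOn J aK DK) (hDn : ∀ i, ∀ I ∉ J i, DK i I = 0) {c : ℕ}
    (hcard : Nat.card {θ : Row n d // θ.2.1 ∉ J θ.1} ≤ c) (x : Fin (n + 1) → L)
    (W : Submodule L (Row n d → L))
    (hW : ∀ i, psiB d (fun i I => algebraMap K L (aK i I)) DL x i ∈ W)
    (hDLn : ∀ i, ∀ I ∉ J i, DL i I = 0) :
    ∃ U : Submodule L (Row n d → L), (∀ i, xiB d x i ∈ U) ∧
      finrank L U ≤ finrank L W + c ∧
      ht κ U ≤ ht κ W + (finrank K L : ℤ) *
        ((∑ θ' : {θ : Row n d // θ.2.1 ∉ J θ.1}, (height κ (kap aK DK θ'.1)).toNat : ℕ) : ℤ) := by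
  classical
  let aL : ι → Expo n → L := fun i I => algebraMap K L (aK i I)
  have hDL : DualOn J aL DL := by
    intro i I hI j I' hI'
    rw [hext, hD i I hI j I' hI']
    split_ifs <;> simp
  let kL : {θ : Row n d // θ.2.1 ∉ J θ.1} → Row n d → L := fun θ' => kap aL DL θ'.1
  have hkL : ∀ θ', kL θ' = fun θ => algebraMap K L (kap aK DK θ'.1 θ) := by
    intro θ'
    funext θ
    simp only [kL, kap, aL, hext, map_sub]
    split_ifs <;> simp
  refine ⟨W ⊔ Submodule.span L (Set.range kL), ?_, ?_, ?_⟩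
  · intro i
    rw [xiB_eq hDL hDLn x i]
    refine Submodule.add_mem _ (Submodule.mem_sup_left (hW i)) ?_
    refine Submodule.mem_sup_right (Submodule.sum_mem _ fun θ' _ => Submodule.smul_mem _ _ ?_)
    exact Submodule.subset_span ⟨θ', rfl⟩
  · have h1 := Submodule.finrank_add_le_finrank_add_finrank W (Submodule.span L (Set.range kL))
    have h2 : finrank L (Submodule.span L (Set.range kL)) ≤
        Fintype.card {θ : Row n d // θ.2.1 ∉ J θ.1} := finrank_range_le_card kL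
    rw [← Nat.card_eq_fintype_card] at h2
    omega
  · have h1 := ht_sup_le h W (Submodule.span L (Set.range kL))
    have h2 : Submodule.span L (Set.range kL) =
        (Finset.univ : Finset {θ : Row n d // θ.2.1 ∉ J θ.1}).sup
          (fun θ' => Submodule.span L {kL θ'}) := by
      rw [Submodule.span_range_eq_iSup, Finset.sup_univ_eq_iSup]
    have h3 := ht_finset_sup_le h (Finset.univ : Finset {θ : Row n d // θ.2.1 ∉ J θ.1})
      (fun θ' => Submodule.span L {kL θ'})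
    rw [← h2] at h3
    have h4 : ∀ θ' : {θ : Row n d // θ.2.1 ∉ J θ.1}, ht κ (Submodule.span L {kL θ'}) ≤
        (finrank K L : ℤ) * ((height κ (kap aK DK θ'.1)).toNat : ℤ) := by
      intro θ'
      have h5 : (kap aK DK θ'.1 : Row n d → K) ≠ 0 := kap_ne hDn θ'.1 θ'.2
      have h6 : kL θ' ≠ 0 := by
        rw [hkL]
        intro h0
        apply h5
        funext θ
        have := congrFun h0 θ
        simpa using this
      rw [ht_single h h6, hkL, h.height_ext h5]
      exact mul_le_mul_of_nonneg_left (Int.self_le_toNat _) (Int.natCast_nonneg _)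
    have h7 : ∑ θ' : {θ : Row n d // θ.2.1 ∉ J θ.1}, ht κ (Submodule.span L {kL θ'}) ≤
        (finrank K L : ℤ) *
        ((∑ θ' : {θ : Row n d // θ.2.1 ∉ J θ.1}, (height κ (kap aK DK θ'.1)).toNat : ℕ) : ℤ) := by
      rw [Nat.cast_sum, Finset.mul_sum]
      exact Finset.sum_le_sum fun θ' _ => h4 θ'
    linarith

end Height

end Pool.Agent.Lib.MP_44a246_ntJ
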