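import Mathlib
import Pool.Agent.Lib.MP_44a246_ntJ.J4
import Pool.Agent.Lib.MP_44a246_ntJ.JD2
import Pool.Agent.Lib.MP_44a246_ntJ.JD4

/-!
The height of the space of rows and of the tangent space, when some coefficients are dependent.
-/

namespace Pool.Agent.Lib.MP_44a246_ntJ

open Pool.Agent.Lib.MP_e52354_nt Pool.Agent.Lib.MP_44a246_nt Pool.Agent.Lib.MP_44a246_ntM
  Pool.Agent.Lib.MP_44a246_ntS Pool.Agent.Lib.MP_44a246_ntL WithZero Polynomial

universe u v w

section Main2

variable {k₀ k : Type*} {κ : Type u} {K : Type v} [Field k₀] [CharZero k₀] [Field k] [CharZero k]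
  [Field κ] [IsAlgClosed κ] [CharZero κ] [Field K]
  [Algebra k₀ κ] [Algebra κ K] [Algebra k₀ K] [IsScalarTower k₀ κ K]
  [Algebra k₀ k] [Algebra k K] [IsScalarTower k₀ k K] [FinTrdeg k₀ k]
  [Algebra κ[X] K] [IsScalarTower κ κ[X] K]
  [Algebra (RatFunc κ) K] [IsScalarTower κ[X] (RatFunc κ) K]
  [Algebra (Rinf κ) K] [IsScalarTower (Rinf κ) (RatFunc κ) K]
  [FiniteDimensional (RatFunc κ) K]

variable {n : ℕ} {ι : Type*} [Fintype ι] [DecidableEq ι] {d : ι → ℕ} {aK : ι → Expo n → K}
  {J : ι → Finset (Expo n)}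

include k₀ in
theorem main_U4 (hK : IsFF κ K) (ht' : Transcendental κ (algebraMap κ[X] K X))
    (halg : Algebra.IsAlgebraic (IntermediateField.adjoin κ {algebraMap κ[X] K X}) K)
    (hJ : ∀ i, J i ⊆ expo (Fin (n + 1)) (d i))
    (hc : AlgebraicIndependent k (fun θ : {θ : ι × Expo n // θ.2 ∈ J θ.1} => aK θ.1.1 θ.1.2))
    (hcalg : ∀ i, ∀ I ∈ expo (Fin (n + 1)) (d i), IsAlgebraic (IntermediateField.adjoin k
      {y | ∃ j, ∃ I' ∈ J j, y = aK j I'}) (aK i I))
    {c : ℕ} (hcard : Nat.card {θ : Row n d // θ.2.1 ∉ J θ.1} ≤ c)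
    {s : K} (hs0 : s ≠ 0) :
    ∃ C : ℕ, ∀ (L : Type w) [Field L] [Algebra κ L] [Algebra κ[X] L] [IsScalarTower κ κ[X] L]
      [Algebra (RatFunc κ) L] [IsScalarTower κ[X] (RatFunc κ) L]
      [Algebra (Rinf κ) L] [IsScalarTower (Rinf κ) (RatFunc κ) L]
      [Algebra K L] [IsScalarTower κ K L] [IsScalarTower κ[X] K L] [IsScalarTower (Rinf κ) K L]
      [IsScalarTower (RatFunc κ) K L] [FiniteDimensional K L] [Algebra k L]
      [IsScalarTower k K L] (x : Fin (n + 1) → L) (_ : x ≠ 0)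
      (Θ Θ₁ : Submodule L (Fin (n + 1) → L))
      (_ : Θ = tangent (Set.range (algebraMap k L)) x)
      (_ : Θ₁ = tangent (Set.range (algebraMap k L) ∪ coefSet L d aK) x),
      ∃ U : Submodule L (Row n d → L), (∀ i, xiB d x i ∈ U) ∧
        Module.finrank L U + Module.finrank L Θ₁ +
          Nat.card {i // yv d (fun i I => algebraMap K L (aK i I)) x i = 0} ≤
          Module.finrank L Θ + Fintype.card ι + c ∧
        subHeight κ Θ + ht κ U ≤ (Module.finrank L Θ : ℤ) * height κ x +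
          ((truncSet (κ := κ) d aK s x).ncard : ℤ) + (ramDeg κ L K : ℤ) +
          (C : ℤ) * (Module.finrank K L : ℤ) := by
  classical
  obtain ⟨B, iB, z, m', c', DK, EK, D'K, e, e', hDK, hDKn, hEKa, hDK0, hEK0, hD'0, hD'a, hD'c, hz,
    hzE, ⟨δf, hδf0, hf1, hf1', hf2, hf3, hf4⟩, ⟨δi, hδi0, hi1, hi1', hi2, hi3, hi4⟩⟩ :=
    exists_data4 (k₀ := k₀) (n := n) (d := d) (aK := aK) ht' halg hc hcalg s
  refine ⟨((n + Fintype.card ι + 1 : ℕ) : ℤ).toNat * ((Module.finrank (RatFunc κ) K : ℤ) *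
    (δf.natDegree - (δi : RatFunc κ).intDegree)).toNat +
    (∑ θ' : {θ : Row n d // θ.2.1 ∉ J θ.1}, (height κ (kap aK DK θ'.1)).toNat), ?_⟩
  intro L _ _ _ _ _ _ _ _ _ _ _ _ _ _ _ _ x hx Θ Θ₁ hΘ hΘ₁
  have hcK : CharZero K := charZero_of_injective_algebraMap (algebraMap κ K).injective
  have : FiniteDimensional (RatFunc κ) L := FiniteDimensional.trans (RatFunc κ) K L
  have hL : IsFF κ L := hK.of_finite
  choose DL' hDL' using fun i I => exists_extension (K := K) (L := L) (DK i I)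
  let DL : ι → Expo n → Derivation ℤ L L := fun i I => if I ∈ J i then DL' i I else 0
  have hDLn : ∀ i, ∀ I ∉ J i, DL i I = 0 := by
    intro i I hI
    simp only [DL, if_neg hI]
  have hDL : ∀ i I y, DL i I (algebraMap K L y) = algebraMap K L (DK i I y) := by
    intro i I y
    by_cases h : I ∈ J i
    · simp only [DL, if_pos h]
      exact hDL' i I y
    · rw [hDLn i I h, hDKn i I h, Derivation.zero_apply, Derivation.zero_apply, map_zero]
  choose EL hEL using fun b => exists_extension (K := K) (L := L) (EK b)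
  choose D'L hD'L using fun j => exists_extension (K := K) (L := L) (D'K j)
  let ik₀ : Algebra k₀ L := ((algebraMap K L).comp (algebraMap k₀ K)).toAlgebra
  have tk₀ : IsScalarTower k₀ K L := IsScalarTower.of_algebraMap_eq' rfl
  have tk₀' : IsScalarTower k₀ k L := IsScalarTower.of_algebraMap_eq fun c => by
    rw [IsScalarTower.algebraMap_apply k K L, IsScalarTower.algebraMap_apply k₀ K L,
      IsScalarTower.algebraMap_apply k₀ k K]
  have hD : DualOn J (fun i I => algebraMap K L (aK i I)) DL := by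
    intro i I hI j I' hI'
    rw [hDL, hDK i I hI j I' hI']
    split_ifs <;> simp
  have hDL0 : ∀ i I (c : k), DL i I (algebraMap k L c) = 0 := by
    intro i I c
    rw [IsScalarTower.algebraMap_apply k K L, hDL, hDK0, map_zero]
  have hEL0 : ∀ b (c : k), EL b (algebraMap k L c) = 0 := by
    intro b c
    rw [IsScalarTower.algebraMap_apply k K L, hEL, hEK0, map_zero]
  have hD'L0 : ∀ j (c : k₀), D'L j (algebraMap k₀ L c) = 0 := by
    intro j c
    rw [IsScalarTower.algebraMap_apply k₀ K L, hD'L, hD'0, map_zero]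
  have hD'La : ∀ j i, ∀ I ∈ J i, D'L j (algebraMap K L (aK i I)) = 0 := by
    intro j i I hI
    rw [hD'L, hD'a j i I hI, map_zero]
  have hD'Lc : ∀ j j', D'L j (algebraMap k L (c' j')) = if j = j' then 1 else 0 := by
    intro j j'
    rw [IsScalarTower.algebraMap_apply k K L, hD'L, hD'c]
    split_ifs <;> simp
  have hELa : ∀ b i, ∀ I ∈ expo (Fin (n + 1)) (d i), EL b (algebraMap K L (aK i I)) = 0 := by
    intro b i I hI
    rw [hEL, hEKa b i I hI, map_zero]
  obtain ⟨l, hl⟩ : ∃ l, x l ≠ 0 := by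
    by_contra hcon
    push Not at hcon
    exact hx (funext hcon)
  obtain ⟨hT2, hT1⟩ := span_eq_tangent4 (k₀ := k₀) (k := k) (K := K) (L := L) (n := n) (aK := aK)
    hJ hz
    hDL0 hEL0 hD'L0 hD'La hD'Lc hD hELa (fun b i I => algebraMap K L (e b i I))
    (fun b j => algebraMap K L (e' b j)) (by
      intro b b'
      rw [finsum_eq_sum_of_fintype, hEL]
      simp only [hDL, hD'L, ← map_mul, ← map_sum, ← map_add]
      rw [hzE b b']
      split_ifs <;> simp) x
  rw [← hΘ] at hT2
  rw [← hΘ₁] at hT1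
  have key : ∀ bas : Module.Basis (Fin (Module.finrank L Θ)) L Θ,
      ∃ (r' u : ℕ) (b : Fin r' → B) (rows : Fin u → Row n d → L)
      (col : (Fin (Module.finrank L Θ) → Fin (n + 1)) →
        Option (Fin r' ⊕ Fin u) → Fin (n + 1) ⊕ ι),
      r' + 1 = Module.finrank L Θ₁ ∧
      LinearIndependent L rows ∧
      (∀ i, psiB d (fun i I => algebraMap K L (aK i I)) DL x i ∈
        Submodule.span L (Set.range rows)) ∧
      u + Module.finrank L Θ₁ +
        Nat.card {i // yv d (fun i I => algebraMap K L (aK i I)) x i = 0} ≤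
        Module.finrank L Θ + Fintype.card ι ∧
      (∀ A, Nat.card {c // (col A c).isLeft} = Module.finrank L Θ) ∧
      ∃ J : L, J ≠ 0 ∧ ∀ (A : Fin (Module.finrank L Θ) → Fin (n + 1))
        (τ : Fin u → Row n d),
        (bigM d (fun i I => algebraMap K L (aK i I)) (col A) x (Sum.elim (fun k => EL (b k))
          (fun j => DL (τ j).1 (τ j).2.1))).det =
          J * (Matrix.of fun i j => (bas i : Fin (n + 1) → L) (A j)).det *
            (Matrix.of fun i j => rows i (τ j)).det := by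
    rw [← hT2, ← hT1]
    intro bas
    exact exists_U4 hELa hl bas
  obtain ⟨r', u, b, rows, col, hr', hrows, hxi, hu, hcol, J, hJ0, hJ⟩ := key (Module.finBasis L Θ)
  have hp : (fun A : Fin (Module.finrank L Θ) → Fin (n + 1) =>
      (Matrix.of fun i j => (Module.finBasis L Θ i : Fin (n + 1) → L) (A j)).det) ≠ 0 := by
    have hli : LinearIndependent L (fun i => (Module.finBasis L Θ i : Fin (n + 1) → L)) :=
      (Module.finBasis L Θ).linearIndependent.map' Θ.subtype (Submodule.ker_subtype Θ)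
    obtain ⟨A, hA⟩ := exists_minor_ne (W := Θ) _ hli
    intro h0
    exact hA (congrFun h0 A)
  have h1 := core3 hL hDL hEL hs0 hδf0 hf1 hf1' hf2 hf3 hf4 hδi0 hi1 hi1' hi2 hi3 hi4 hx b
    col hcol _ hp rows hrows hJ0 hJ
  change subHeight κ Θ + _ ≤ _ at h1
  have hfr : Module.finrank L (Submodule.span L (Set.range rows)) = u := by
    rw [finrank_span_eq_card hrows, Fintype.card_fin]
  obtain ⟨U, hU1, hU2, hU3⟩ := exists_U_of_rows (κ := κ) hL hDL hDK hDKn hcard x
    (Submodule.span L (Set.range rows)) hxi hDLn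
  rw [hfr] at hU2
  refine ⟨U, hU1, by omega, ?_⟩
  set c₁ := Module.finrank L Θ with hc₁
  set c₀ := Module.finrank L Θ₁ with hc₀
  set q := Nat.card {i // yv d (fun i I => algebraMap K L (aK i I)) x i = 0} with hq
  have h7 : (Module.finrank (RatFunc κ) L : ℤ) =
      (Module.finrank (RatFunc κ) K : ℤ) * Module.finrank K L := by
    rw [← Module.finrank_mul_finrank (RatFunc κ) K L]
    push_cast
    rfl
  have h8 : (δi : RatFunc κ).intDegree ≤ 0 := (mem_Rinf κ).mp δi.2
  set A : ℤ := (Module.finrank (RatFunc κ) K : ℤ) *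
    (δf.natDegree - (δi : RatFunc κ).intDegree) with hA
  have hA0 : 0 ≤ A := by
    refine mul_nonneg (Int.natCast_nonneg _) ?_
    have : (0 : ℤ) ≤ δf.natDegree := Int.natCast_nonneg _
    linarith
  have h9 : ((r' + u + 1 : ℕ) : ℤ) * ((Module.finrank (RatFunc κ) L : ℤ) *
          (δf.natDegree - (δi : RatFunc κ).intDegree)) =
      ((r' + u + 1 : ℕ) : ℤ) * (A * Module.finrank K L) := by
    rw [h7, hA]; ring
  have h10 : c₁ ≤ n + 1 := by
    have := Submodule.finrank_le Θ
    rwa [Module.finrank_fintype_fun_eq_card, Fintype.card_fin] at this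
  have h11 : ((r' + u + 1 : ℕ) : ℤ) * (A * Module.finrank K L) ≤
      ((n + Fintype.card ι + 1 : ℕ) : ℤ) * (A * Module.finrank K L) := by
    refine mul_le_mul_of_nonneg_right ?_ (mul_nonneg hA0 (Int.natCast_nonneg _))
    exact_mod_cast (by omega : r' + u + 1 ≤ n + Fintype.card ι + 1)
  have h12 : (((((n + Fintype.card ι + 1 : ℕ) : ℤ).toNat * A.toNat : ℕ)) : ℤ) *
      (Module.finrank K L : ℤ) = ((n + Fintype.card ι + 1 : ℕ) : ℤ) * (A * Module.finrank K L) := by
    rw [Nat.cast_mul, Int.toNat_of_nonneg hA0, Int.toNat_natCast]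
    ring
  rw [h9] at h1
  rw [Nat.cast_add, add_mul, h12]
  linarith

end Main2

end Pool.Agent.Lib.MP_44a246_ntJ
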