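import Mathlib
import Pool.Agent.Lib.MP_44a246_nt.PolyMain2
import Pool.Agent.Lib.MP_44a246_ntM.M5
import Pool.Agent.Lib.MP_e52354_ntK.KBasis
import Pool.Agent.Lib.MP_44a246_ntJ.JD5
import Pool.Agent.Lib.MP_44a246_ntJ.J7
import Pool.Agent.Lib.MP_44a246_ntJ.Defs2

/-!
The main inequality with slopes, for polynomials some of whose coefficients are dependent.
-/

namespace Pool.Agent.Lib.MP_44a246_ntJ

open Pool.Agent.Lib.MP_e52354_nt Pool.Agent.Lib.MP_44a246_nt Pool.Agent.Lib.MP_44a246_ntM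
  Pool.Agent.Lib.MP_44a246_ntS Pool.Agent.Lib.MP_44a246_ntL Pool.Agent.Lib.MP_e52354_ntK
  WithZero Module

universe u v w

section Choice

variable {n : ℕ} {ι : Type*} [Fintype ι] [DecidableEq ι]

/-- the choice of the independent coefficients -/
theorem exists_part {k : Type*} {K : Type*} [Field k] [Field K] [Algebra k K] (d : ι → ℕ)
    (a : ι → Expo n → K) {c : ℕ}
    (h : (Nat.card (Σ i, {I : Fin (n + 1) →₀ ℕ // I.degree = d i}) : Cardinal) ≤
      Algebra.trdeg k (IntermediateField.adjoin k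
        (Set.range fun θ : Σ i, {I : Fin (n + 1) →₀ ℕ // I.degree = d i} => a θ.1 θ.2.1)) + c) :
    ∃ J : ι → Finset (Expo n), (∀ i, J i ⊆ expo (Fin (n + 1)) (d i)) ∧
      AlgebraicIndependent k (fun θ : {θ : ι × Expo n // θ.2 ∈ J θ.1} => a θ.1.1 θ.1.2) ∧
      (∀ i, ∀ I ∈ expo (Fin (n + 1)) (d i), IsAlgebraic (IntermediateField.adjoin k
        {y | ∃ j, ∃ I' ∈ J j, y = a j I'}) (a i I)) ∧
      Nat.card {θ : Row n d // θ.2.1 ∉ J θ.1} ≤ c := by
  classical
  let e : (Σ i, {I : Fin (n + 1) →₀ ℕ // I.degree = d i}) ≃ Row n d :=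
    Equiv.sigmaCongrRight fun i => Equiv.subtypeEquivRight fun I => mem_expo.symm
  have hfin : Finite (Σ i, {I : Fin (n + 1) →₀ ℕ // I.degree = d i}) := Finite.of_equiv _ e.symm
  have := Fintype.ofFinite (Σ i, {I : Fin (n + 1) →₀ ℕ // I.degree = d i})
  obtain ⟨P, hP, halg, hcard⟩ := exists_basis_family (k₀ := k)
    (fun θ : Σ i, {I : Fin (n + 1) →₀ ℕ // I.degree = d i} => a θ.1 θ.2.1)
  rw [← hcard] at h
  have h1 : Nat.card (Σ i, {I : Fin (n + 1) →₀ ℕ // I.degree = d i}) ≤ Nat.card P + c := by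
    exact_mod_cast h
  let J : ι → Finset (Expo n) := fun i => (expo (Fin (n + 1)) (d i)).filter fun I =>
    ∃ h : I.degree = d i,
      (⟨i, ⟨I, h⟩⟩ : Σ i, {I : Fin (n + 1) →₀ ℕ // I.degree = d i}) ∈ P
  have hJP : ∀ i I (h : I.degree = d i), I ∈ J i ↔
      (⟨i, ⟨I, h⟩⟩ : Σ i, {I : Fin (n + 1) →₀ ℕ // I.degree = d i}) ∈ P := by
    intro i I h
    simp only [J, Finset.mem_filter]
    constructor
    · rintro ⟨-, _, h2⟩
      exact h2
    · intro h2
      exact ⟨mem_expo.mpr h, h, h2⟩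
  have hJe : ∀ i, J i ⊆ expo (Fin (n + 1)) (d i) := fun i => Finset.filter_subset _ _
  refine ⟨J, hJe, ?_, ?_, ?_⟩
  · have hmem : ∀ θ : {θ : ι × Expo n // θ.2 ∈ J θ.1},
        (⟨θ.1.1, ⟨θ.1.2, mem_expo.mp (hJe _ θ.2)⟩⟩ :
          Σ i, {I : Fin (n + 1) →₀ ℕ // I.degree = d i}) ∈ P := fun θ =>
      (hJP _ _ (mem_expo.mp (hJe _ θ.2))).mp θ.2
    refine hP.comp (fun θ : {θ : ι × Expo n // θ.2 ∈ J θ.1} =>
      (⟨⟨θ.1.1, ⟨θ.1.2, mem_expo.mp (hJe _ θ.2)⟩⟩, hmem θ⟩ : P)) ?_
    rintro ⟨⟨i, I⟩, h⟩ ⟨⟨i', I'⟩, h'⟩ heq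
    simp only [Subtype.mk.injEq, Sigma.mk.injEq] at heq
    obtain ⟨h1, h2⟩ := heq
    subst h1
    simp only [heq_eq_eq, Subtype.mk.injEq] at h2
    subst h2
    rfl
  · intro i I hI
    have h2 := halg ⟨i, ⟨I, mem_expo.mp hI⟩⟩
    have h3 : Algebra.adjoin k
        ((fun θ : Σ i, {I : Fin (n + 1) →₀ ℕ // I.degree = d i} => a θ.1 θ.2.1) '' P) ≤
        (IntermediateField.adjoin k {y | ∃ j, ∃ I' ∈ J j, y = a j I'}).toSubalgebra := by
      rw [Algebra.adjoin_le_iff]
      rintro _ ⟨⟨j, I', hI'⟩, hP', rfl⟩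
      exact IntermediateField.subset_adjoin k _ ⟨j, I', (hJP _ _ hI').mpr hP', rfl⟩
    obtain ⟨p, hp0, hp⟩ := h2
    refine ⟨p.map (Subalgebra.inclusion h3).toRingHom, ?_, ?_⟩
    · rw [Ne, Polynomial.map_eq_zero_iff]
      · exact hp0
      · exact Subalgebra.inclusion_injective h3
    · have h4 : (algebraMap (IntermediateField.adjoin k {y | ∃ j, ∃ I' ∈ J j, y = a j I'}) K).comp
          (Subalgebra.inclusion h3).toRingHom = algebraMap _ K := rfl
      rw [Polynomial.aeval_def, Polynomial.eval₂_map]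
      exact hp
  · have h2 : Nat.card {θ : Row n d // θ.2.1 ∉ J θ.1} = Nat.card {θ // θ ∉ P} := by
      refine Nat.card_congr (e.symm.subtypeEquiv ?_)
      rintro ⟨i, I, hI⟩
      exact not_congr (hJP i I (mem_expo.mp hI))
    rw [h2]
    rw [Nat.card_eq_fintype_card, Nat.card_eq_fintype_card] at h1
    rw [Nat.card_eq_fintype_card]
    have h3 := Fintype.card_subtype_compl (fun θ => θ ∈ P)
    have h4 : Fintype.card P = Fintype.card {θ // θ ∈ P} := Fintype.card_congr (Equiv.refl _)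
    omega

end Choice

section Main2

variable {k₀ k : Type*} {κ : Type u} {K : Type v} [Field k₀] [CharZero k₀] [Field k] [CharZero k]
  [Field κ] [IsAlgClosed κ] [CharZero κ] [Field K]
  [Algebra k₀ κ] [Algebra κ K] [Algebra k₀ K] [IsScalarTower k₀ κ K]
  [Algebra k₀ k] [Algebra k K] [IsScalarTower k₀ k K] [FinTrdeg k₀ k]

variable {n : ℕ} {ι : Type*} [Fintype ι] [DecidableEq ι]

include k₀ in
theorem poly_U4 [Algebra (Polynomial κ) K] [IsScalarTower κ (Polynomial κ) K]
    [Algebra (RatFunc κ) K] [IsScalarTower (Polynomial κ) (RatFunc κ) K]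
    [Algebra (Rinf κ) K] [IsScalarTower (Rinf κ) (RatFunc κ) K]
    [FiniteDimensional (RatFunc κ) K] (hK : IsFF κ K)
    (ht : Transcendental κ (algebraMap (Polynomial κ) K Polynomial.X))
    (halg : Algebra.IsAlgebraic
      (IntermediateField.adjoin κ {algebraMap (Polynomial κ) K Polynomial.X}) K)
    (d : ι → ℕ) (F : ι → MvPolynomial (Fin (n + 1)) K)
    (hF : ∀ i, (F i).IsHomogeneous (d i))
    {c : ℕ} (hgen : (Nat.card (Σ i, {I : Fin (n + 1) →₀ ℕ // I.degree = d i}) : Cardinal) ≤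
      Algebra.trdeg k (IntermediateField.adjoin k (Set.range fun θ : Σ i,
        {I : Fin (n + 1) →₀ ℕ // I.degree = d i} => (F θ.1).coeff θ.2.1)) + c)
    (S : Set (Place κ K)) (hS : S.Finite) :
    ∃ C : ℕ, ∀ (L : Type w) [Field L] [Algebra K L] [FiniteDimensional K L] [Algebra κ L]
      [IsScalarTower κ K L] [Algebra k L] [IsScalarTower k K L]
      (x : Fin (n + 1) → L), x ≠ 0 → ∀ (Θ Θ₁ : Submodule L (Fin (n + 1) → L)),
      Θ = tangent (Set.range (algebraMap k L)) x →
      Θ₁ = tangent (Set.range (algebraMap k L) ∪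
        {y | ∃ i I, y = algebraMap K L ((F i).coeff I)}) x →
      IsFF κ L ∧ ∃ U : Submodule L (Row n d → L), (∀ i, xiB d x i ∈ U) ∧
      finrank L U + finrank L Θ₁ + Nat.card {i // MvPolynomial.aeval x (F i) = 0} ≤
        finrank L Θ + Fintype.card ι + c ∧
      subHeight κ Θ + MP_44a246_ntS.ht κ U ≤ (finrank L Θ : ℤ) * height κ x +
        (truncCount κ F d S x : ℤ) + (ramDeg κ L K : ℤ) + (C : ℤ) * (finrank K L : ℤ) := by
  classical
  obtain ⟨s, hs0, hs⟩ := exists_nonunit S hS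
  obtain ⟨J, hJ, hc, hcalg, hcard⟩ := exists_part d (fun i I => (F i).coeff I) hgen
  obtain ⟨C, hC⟩ := main_U4 (k₀ := k₀) (k := k) (κ := κ) (K := K) (n := n) (d := d)
    (aK := fun i I => (F i).coeff I) hK ht halg hJ hc hcalg hcard hs0
  refine ⟨C, ?_⟩
  intro L _ _ _ _ _ _ _ x hx Θ Θ₁ hΘ hΘ₁
  let iX : Algebra (Polynomial κ) L :=
    ((algebraMap K L).comp (algebraMap (Polynomial κ) K)).toAlgebra
  let iK : Algebra (RatFunc κ) L := ((algebraMap K L).comp (algebraMap (RatFunc κ) K)).toAlgebra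
  let iR : Algebra (Rinf κ) L := ((algebraMap K L).comp (algebraMap (Rinf κ) K)).toAlgebra
  have t1 : IsScalarTower (Polynomial κ) K L := IsScalarTower.of_algebraMap_eq' rfl
  have t2 : IsScalarTower (RatFunc κ) K L := IsScalarTower.of_algebraMap_eq' rfl
  have t3 : IsScalarTower (Rinf κ) K L := IsScalarTower.of_algebraMap_eq' rfl
  have t4 : IsScalarTower κ (Polynomial κ) L := IsScalarTower.of_algebraMap_eq fun u => by
    rw [IsScalarTower.algebraMap_apply κ K L, IsScalarTower.algebraMap_apply κ (Polynomial κ) K]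
    rfl
  have t5 : IsScalarTower (Polynomial κ) (RatFunc κ) L := IsScalarTower.of_algebraMap_eq fun u => by
    rw [IsScalarTower.algebraMap_apply (Polynomial κ) K L,
      IsScalarTower.algebraMap_apply (Polynomial κ) (RatFunc κ) K]
    rfl
  have t6 : IsScalarTower (Rinf κ) (RatFunc κ) L := IsScalarTower.of_algebraMap_eq fun u => by
    rw [IsScalarTower.algebraMap_apply (Rinf κ) K L,
      IsScalarTower.algebraMap_apply (Rinf κ) (RatFunc κ) K]
    rfl
  have hfin : FiniteDimensional (RatFunc κ) L := FiniteDimensional.trans (RatFunc κ) K L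
  have hyv : ∀ i, yv d (fun i I => algebraMap K L ((F i).coeff I)) x i =
      MvPolynomial.aeval x (F i) := fun i => (aeval_eq_Fval (F i) (hF i) x).symm
  refine ⟨hK.of_finite, ?_⟩
  obtain ⟨U, hU1, hU2, hU3⟩ := hC L x hx Θ Θ₁ hΘ (by
      rw [hΘ₁]
      refine tangent_congr fun E => ?_
      constructor
      · intro h y hy
        rcases hy with hy | ⟨i, I, hI, rfl⟩
        · exact h y (Or.inl hy)
        · exact h _ (Or.inr ⟨i, I, rfl⟩)
      · intro h y hy
        rcases hy with hy | ⟨i, I, rfl⟩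
        · exact h y (Or.inl hy)
        · by_cases hI : I ∈ expo (Fin (n + 1)) (d i)
          · exact h _ (Or.inr ⟨i, I, hI, rfl⟩)
          · have h2 : (F i).coeff I = 0 := by
              by_contra h3
              apply hI
              rw [mem_expo]
              have h4 := hF i h3
              rw [← h4, Finsupp.degree_eq_weight_one]
              rfl
            rw [h2, map_zero, map_zero])
  -- comparison of the counting functions
  have htr : {w : Place κ L | (∀ v ∈ S, ¬ (w.1.comap (algebraMap K L)).IsEquiv v.1) ∧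
      ∃ i, MvPolynomial.aeval x (F i) ≠ 0 ∧
        w.1 (MvPolynomial.aeval x (F i)) < vmax w.1 x ^ d i}.Finite := by
    have hfin : ((⋃ j ∈ Finset.univ.filter (fun j => MvPolynomial.aeval x (F j) ≠ 0),
        {v : Place κ L | v.1 (MvPolynomial.aeval x (F j)) ≠ 1}) ∪
        {v : Place κ L | vmax v.1 x ≠ 1}).Finite := by
      refine Set.Finite.union (Set.Finite.biUnion (Finset.finite_toSet _) fun j hj => ?_)
        (vmax_finite hx)
      have hj' : MvPolynomial.aeval x (F j) ≠ 0 :=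
        (Finset.mem_filter.mp (Finset.mem_coe.mp hj)).2
      exact place_finite hj'
    refine hfin.subset fun v hv => ?_
    obtain ⟨-, j, hj, hlt⟩ := hv
    by_contra hcon
    simp only [Set.mem_union, Set.mem_iUnion, not_or, not_exists, Finset.mem_filter] at hcon
    obtain ⟨hc1, hc2⟩ := hcon
    have h1 : v.1 (MvPolynomial.aeval x (F j)) = 1 := by
      by_contra h2
      exact hc1 j ⟨Finset.mem_univ _, hj⟩ h2
    have h2 : vmax v.1 x = 1 := by
      by_contra h3
      exact hc2 h3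
    rw [h2, one_pow] at hlt
    exact absurd h1 hlt.ne
  have hsub : truncSet (κ := κ) d (fun i I => (F i).coeff I) s x ⊆
      {w : Place κ L | (∀ v ∈ S, ¬ (w.1.comap (algebraMap K L)).IsEquiv v.1) ∧
      ∃ i, MvPolynomial.aeval x (F i) ≠ 0 ∧
        w.1 (MvPolynomial.aeval x (F i)) < vmax w.1 x ^ d i} := by
    rintro w ⟨hw1, j, hj1, hj2⟩
    refine ⟨fun v hv hequiv => ?_, j, ?_, ?_⟩
    · refine hs v hv ?_
      exact (hequiv.eq_one_iff_eq_one).mp hw1
    · rw [← hyv]; exact hj1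
    · rw [← hyv]; exact hj2
  have hN : ((truncSet (κ := κ) d (fun i I => (F i).coeff I) s x).ncard : ℤ) ≤
      (truncCount κ F d S x : ℤ) := by
    exact_mod_cast Set.ncard_le_ncard hsub htr
  have hq : Nat.card {i // yv d (fun i I => algebraMap K L ((F i).coeff I)) x i = 0} =
      Nat.card {i // MvPolynomial.aeval x (F i) = 0} := by
    simp only [hyv]
  rw [hq] at hU2
  exact ⟨U, hU1, hU2, by linarith⟩

end Main2

section Main

/-- The truncated second main theorem for forms generic over a field `k` of finite transcendence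
degree over a field of constants, with slopes. -/
theorem main_Jc {k₀ k : Type*} {κ : Type u} {K : Type v} [Field k₀] [CharZero k₀] [Field k]
    [Field κ] [IsAlgClosed κ] [Field K] [Algebra k₀ κ] [Algebra κ K] [Algebra k₀ K]
    [IsScalarTower k₀ κ K] [Algebra k₀ k] [Algebra k K] [IsScalarTower k₀ k K] [FinTrdeg k₀ k]
    {t : K} (ht : Transcendental κ t) [FiniteDimensional (IntermediateField.adjoin κ {t}) K]
    {n : ℕ} {ι : Type*} [Fintype ι] (d : ι → ℕ) (F : ι → MvPolynomial (Fin (n + 1)) K)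
    (hF : ∀ i, (F i).IsHomogeneous (d i)) {c : ℕ} (hgen : NearlyGeneric k c d F)
    (S : Set (Place κ K)) (hS : S.Finite) :
    ∃ C : ℕ, ∀ (L : Type w) [Field L] [Algebra K L] [FiniteDimensional K L] [Algebra κ L]
      [IsScalarTower κ K L] [Algebra k L] [IsScalarTower k K L]
      (x : Fin (n + 1) → L), x ≠ 0 → ∀ (Θ Θ' : Submodule L (Fin (n + 1) → L)) (a b q h N : ℤ),
      Θ = tangent (Set.range (algebraMap k L)) x → Θ' = tangent (coeffSet k L F) x →
      a = finrank L Θ → b = finrank L Θ' → q = vanCard F x → h = height κ x →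
      N = truncCount κ F d S x + ramDeg κ L K + C * finrank K L →
      b + q ≤ a + c ∧ ∀ m : ℕ, 1 ≤ m → (∀ i, m ≤ d i) →
        (∀ ν : ℝ, 0 ≤ ν → SlopeLE κ m x ν →
          ((∑ i, d i - a) * h + subHeight κ Θ : ℝ) ≤ N + (a - b - q + c) * ν) ∧
        ∀ r : ℕ, Algebra.trdeg k (pointField k x) ≤ r →
          (∑ i, d i + q - c - 2 * r - 1) * h ≤ N ∧ ∀ T : ℝ, 0 < T →
          (T * (∑ i, d i - r - 1) * h : ℝ) ≤ T * N + (r - q + c) * h ∨
          ∃ Q : Submodule L (Sym (Fin (n + 1)) m → L), veronese m x ∈ Q ∧ 2 ≤ finrank L Q ∧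
            T * subHeight κ Q < (T * m - (finrank L Q - 1)) * h := by
  classical
  have hcκ : CharZero κ := charZero_of_injective_algebraMap (algebraMap k₀ κ).injective
  have hck : CharZero k := charZero_of_injective_algebraMap (algebraMap k₀ k).injective
  have hK : IsFF κ K := ⟨t, ht, inferInstance⟩
  refine with_instances ht ?_
  intro _ _ _ _ _ _ _ h1 h2
  obtain ⟨C, hC⟩ := poly_U4 (k₀ := k₀) hK h1 h2 d F hF hgen S hS
  refine ⟨C, ?_⟩
  intro L _ _ _ _ _ _ _ x hx Θ Θ' a b q h N hΘ hΘ' ha hb hq hh hN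
  obtain ⟨hL, U, hU1, hU2, hU3⟩ := hC L x hx Θ Θ' hΘ hΘ'
  have hh0 : 0 ≤ h := by rw [hh]; exact hL.height_nonneg hx
  have hΘ0 : 0 ≤ subHeight κ Θ := ht_nonneg hL Θ
  have hb1 : (1 : ℤ) ≤ b := by
    rw [hb, hΘ']
    exact_mod_cast one_le_finrank_tangent hx
  have hcard : Fintype.card ι ≤ finrank L U := by
    have h3 := Submodule.finrank_mono (R := L) (s := Submodule.span L (Set.range (xiB d x)))
      (t := U) (Submodule.span_le.mpr (by rintro _ ⟨i, rfl⟩; exact hU1 i))
    rwa [finrank_span_eq_card (xiB_lin hx)] at h3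
  have h8 : b + q ≤ a + c := by
    rw [hb, ha, hq]
    unfold vanCard
    have : finrank L Θ' + Nat.card {i // MvPolynomial.aeval x (F i) = 0} ≤ finrank L Θ + c := by
      omega
    exact_mod_cast this
  have hdU : ((finrank L U : ℝ) - Fintype.card ι) ≤ a - b - q + c := by
    have h3 : (finrank L U : ℤ) - Fintype.card ι ≤ a - b - q + c := by
      rw [hb, ha, hq]
      unfold vanCard
      push_cast
      have : ((finrank L U + finrank L Θ' + Nat.card {i // MvPolynomial.aeval x (F i) = 0} : ℕ) : ℤ)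
          ≤ ((finrank L Θ + Fintype.card ι + c : ℕ) : ℤ) := by exact_mod_cast hU2
      push_cast at this
      linarith
    exact_mod_cast h3
  have hU3' : (subHeight κ Θ : ℝ) + MP_44a246_ntS.ht κ U ≤ a * h + N := by
    have h3 : subHeight κ Θ + MP_44a246_ntS.ht κ U ≤ a * h + N := by
      rw [ha, hh, hN]; linarith
    exact_mod_cast h3
  have key : ∀ m : ℕ, 1 ≤ m → (∀ i, m ≤ d i) → ∀ ν : ℝ, 0 ≤ ν →
      (∀ Q : Submodule L (Sym (Fin (n + 1)) m → L), veronese m x ∈ Q →
        (m * h : ℝ) ≤ subHeight κ Q + (finrank L Q - 1) * ν) →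
      ((∑ i, d i - a) * h + subHeight κ Θ : ℝ) ≤ N + (a - b - q + c) * ν := by
    intro m hm hmd ν hν0 hν
    have h3 := slope_bound' hL hm hmd hx (ν := ν) (by rw [← hh]; exact hν) U hU1
    rw [← hh] at h3
    have h4 : ((finrank L U : ℝ) - Fintype.card ι) * ν ≤ (a - b - q + c) * ν :=
      mul_le_mul_of_nonneg_right hdU hν0
    push_cast at h3 ⊢
    linarith
  have key2 : ∀ m : ℕ, 1 ≤ m → (∀ i, m ≤ d i) → ∀ r : ℕ, Algebra.trdeg k (pointField k x) ≤ r →
      ∀ T : ℝ, 0 < T → (T * (∑ i, d i - r - 1) * h : ℝ) ≤ T * N + (r - q + c) * h ∨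
          ∃ Q : Submodule L (Sym (Fin (n + 1)) m → L), veronese m x ∈ Q ∧ 2 ≤ finrank L Q ∧
            T * subHeight κ Q < (T * m - (finrank L Q - 1)) * h := by
    intro m hm hmd r hr T hT
    rcases slope_or (m := m) hL hx hT with h3 | h3
    · left
      have hh0' : (0 : ℝ) ≤ h := by exact_mod_cast hh0
      have h4 := key m hm hmd (h / T) (div_nonneg hh0' hT.le) (by rw [hh]; exact h3)
      have hΘr : a ≤ r + 1 := by
        rw [ha, hΘ]
        exact_mod_cast finrank_tangent_le hx hr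
      have hΘr' : (a : ℝ) ≤ r + 1 := by exact_mod_cast hΘr
      have hΘ0' : (0 : ℝ) ≤ subHeight κ Θ := by exact_mod_cast hΘ0
      have hb1' : (1 : ℝ) ≤ b := by exact_mod_cast hb1
      have h5 : T * ((∑ i, d i - a) * h + subHeight κ Θ : ℝ) ≤
          T * N + (a - b - q + c) * h := by
        have := mul_le_mul_of_nonneg_left h4 hT.le
        have h6 : T * (N + (a - b - q + c) * (h / T) : ℝ) = T * N + (a - b - q + c) * h := by
          field_simp
        linarith
      have h6 : 0 ≤ T * ((r + 1 - a : ℝ) * h) :=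
        mul_nonneg hT.le (mul_nonneg (by linarith) hh0')
      have h7 : 0 ≤ ((r + 1 - a : ℝ) + (b - 1)) * h :=
        mul_nonneg (by linarith) hh0'
      have h9 : 0 ≤ T * (subHeight κ Θ : ℝ) := mul_nonneg hT.le hΘ0'
      push_cast at h5 ⊢
      nlinarith [h5, h6, h7, h9]
    · right
      rw [hh]
      exact h3
  refine ⟨h8, fun m hm hmd => ⟨fun ν hν0 hν => key m hm hmd ν hν0 (by rw [hh]; exact hν),
    fun r hr => ⟨?_, key2 m hm hmd r hr⟩⟩⟩
  rcases key2 1 le_rfl (fun i => hm.trans (hmd i)) r hr 1 one_pos with h3 | ⟨Q, -, hQ2, hQ3⟩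
  · have h4 : ((∑ i, d i + q - c - 2 * r - 1) * h : ℝ) ≤ N := by
      push_cast at h3 ⊢
      linarith
    exact_mod_cast h4
  · exfalso
    have h4 : (0 : ℝ) ≤ subHeight κ Q := by
      have : 0 ≤ subHeight κ Q := ht_nonneg hL Q
      exact_mod_cast this
    have h5 : (0 : ℝ) ≤ ((finrank L Q : ℝ) - 2) * h := by
      refine mul_nonneg ?_ (by exact_mod_cast hh0)
      have : (2 : ℝ) ≤ finrank L Q := by exact_mod_cast hQ2
      linarith
    push_cast at hQ3
    linarith

end Main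

end Pool.Agent.Lib.MP_44a246_ntJ
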