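import Mathlib
import Pool.Agent.Lib.MP_44a246_ntJ.JD6

/-!
The main inequality with slopes in terms of real numbers.
-/

namespace Pool.Agent.Lib.MP_44a246_ntJ

open Pool.Agent.Lib.MP_44a246_nt Module

universe u v w

/-- The truncated second main theorem with slopes for forms whose coefficients generate a field of
large transcendence degree over `k`. -/
theorem main_Jr {k₀ k : Type*} {κ : Type u} {K : Type v} [Field k₀] [CharZero k₀] [Field k]
    [Field κ] [IsAlgClosed κ] [Field K] [Algebra k₀ κ] [Algebra κ K] [Algebra k₀ K]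
    [IsScalarTower k₀ κ K] [Algebra k₀ k] [Algebra k K] [IsScalarTower k₀ k K] [FinTrdeg k₀ k]
    {t : K} (ht : Transcendental κ t) [FiniteDimensional (IntermediateField.adjoin κ {t}) K]
    {n c : ℕ} {ι : Type*} [Fintype ι] (d : ι → ℕ) (F : ι → MvPolynomial (Fin (n + 1)) K)
    (hF : ∀ i, (F i).IsHomogeneous (d i)) (hgen : NearlyGeneric k c d F)
    (S : Set (Place κ K)) (hS : S.Finite) :
    ∃ C : ℕ, ∀ (L : Type w) [Field L] [Algebra K L] [FiniteDimensional K L] [Algebra κ L]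
      [IsScalarTower κ K L] [Algebra k L] [IsScalarTower k K L] (x : Fin (n + 1) → L), x ≠ 0 →
      ∀ (Θ Θ' : Submodule L (Fin (n + 1) → L)) (a b q h g D N : ℝ),
      Θ = tangent (Set.range (algebraMap k L)) x → Θ' = tangent (coeffSet k L F) x →
      a = finrank L Θ → b = finrank L Θ' → q = vanCard F x → h = height κ x →
      g = subHeight κ Θ → D = ∑ i, d i →
      N = truncCount κ F d S x + ramDeg κ L K + C * finrank K L →
      b + q ≤ a + c ∧ ∀ m : ℕ, 1 ≤ m → (∀ i, m ≤ d i) →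
        (∀ ν, 0 ≤ ν → SlopeLE κ m x ν → (D - a) * h + g ≤ N + (a - b - q + c) * ν) ∧
        ∀ r : ℕ, Algebra.trdeg k (pointField k x) ≤ r →
          (D + q - c - 2 * r - 1) * h ≤ N ∧
          ∀ T, 0 < T → T * (D - r - 1) * h ≤ T * N + (r - q + c) * h ∨ SmallSpace κ m x T := by
  obtain ⟨C, hC⟩ := main_Jc (k₀ := k₀) ht d F hF hgen S hS
  refine ⟨C, ?_⟩
  intro L _ _ _ _ _ _ _ x hx Θ Θ' a b q h g D N hΘ hΘ' ha hb hq hh hg hD hN
  obtain ⟨h1, h2⟩ := hC L x hx Θ Θ' _ _ _ _ _ hΘ hΘ' rfl rfl rfl rfl rfl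
  subst ha hb hq hh hg hD hN
  refine ⟨by exact_mod_cast h1, fun m hm hmd => ?_⟩
  obtain ⟨h3, h4⟩ := h2 m hm hmd
  refine ⟨fun ν hν0 hν => ?_, fun r hr => ?_⟩
  · have h5 := h3 ν hν0 hν
    push_cast at h5 ⊢
    exact h5
  · obtain ⟨h5, h6⟩ := h4 r hr
    refine ⟨?_, fun T hT => ?_⟩
    · have h7 := (Int.cast_le (R := ℝ)).mpr h5
      push_cast at h7 ⊢
      exact h7
    · rcases h6 T hT with h7 | h7
      · left
        push_cast at h7 ⊢
        exact h7
      · exact Or.inr h7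

end Pool.Agent.Lib.MP_44a246_ntJ
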