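import Mathlib
import Pool.Agent.Lib.MP_44a246_nt.Terms
import Pool.Agent.Lib.MP_44a246_ntJ.Defs2
import Pool.Agent.Lib.MP_44a246_ntJ.JD7

/-!
# A truncated second main theorem with slopes for generic hypersurfaces over function fields

Let `κ` be an algebraically closed field of characteristic zero and `K` a function field of one
variable over `κ`. Let `k` be a subfield of `K` which has finite transcendence degree over a
subfield `k₀` of `κ` (for instance any finitely generated subfield of `K`, or any subfield of `κ`).
Let `F i` be forms of degrees `d i` in `n + 1` variables over `K` whose coefficients, `M` in number,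
generate over `k` a field `k₁` of transcendence degree at least `M - c`. For a point `x` of
projective `n`-space over a finite extension `L` of `K` let `Θ` and `Θ'` be the tangent spaces at
`x` of the cones over the Zariski closures of `x` over `k` and over `k₁`; in coordinates, `Θ`
consists of the vectors `c x + E x` with `c` in `L` and `E` a derivation of `L` over `k`. Let `a`
and `b` be their dimensions, `q` the number of the forms `F i` which vanish at `x`, `D = ∑ d i`, and
`N = N(x) + deg Ram(L/K) + C [L : K]`, where `N(x)` is the truncated counting function (each place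
of `L` outside `S` counted once) of the hypersurfaces `F i = 0` that do not contain `x` and where
`C` depends only on the forms and on the finite set `S` of places of `K`. Then `b + q ≤ a + c`, and
for `1 ≤ m ≤ d i`

`(D - a) h(x) + h(Θ) ≤ N + (a - b - q + c) ν`

for every `ν ≥ 0` such that `m h(x) ≤ h(Q) + (dim Q - 1) ν` for all subspaces `Q` which contain the
vector `veronese m x` of the monomials of degree `m`. Consequently, if the Zariski closure of `x`
over `k` has dimension at most `r`, then

`(D + q - c - 2 r - 1) h(x) ≤ N`,

and, for every `T > 0`,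

`T (D - r - 1) h(x) ≤ T N + (r - q + c) h(x)`

unless `veronese m x` lies in a subspace `Q` of dimension at least two and of small height,
`T h(Q) < (T m - (dim Q - 1)) h(x)`. All heights are relative to `L`.
-/

namespace Pool.Agent.Results.MP_44a246_nt.TangentInequality

open Pool.Agent.Lib.MP_44a246_nt Pool.Agent.Lib.MP_44a246_ntJ Module

universe u v w

theorem result {k₀ k : Type*} {κ : Type u} {K : Type v} [Field k₀] [CharZero k₀] [Field k]
    [Field κ] [IsAlgClosed κ] [Field K] [Algebra k₀ κ] [Algebra κ K] [Algebra k₀ K]
    [IsScalarTower k₀ κ K] [Algebra k₀ k] [Algebra k K] [IsScalarTower k₀ k K] [FinTrdeg k₀ k]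
    {t : K} (ht : Transcendental κ t) [FiniteDimensional (IntermediateField.adjoin κ {t}) K]
    {n c : ℕ} {ι : Type*} [Fintype ι] (d : ι → ℕ) (F : ι → MvPolynomial (Fin (n + 1)) K)
    (hF : ∀ i, (F i).IsHomogeneous (d i)) (hgen : NearlyGeneric k c d F)
    (S : Set (Place κ K)) (hS : S.Finite) :
    ∃ C : ℕ, ∀ (L : Type w) [Field L] [Algebra K L] [FiniteDimensional K L] [Algebra κ L]
      [IsScalarTower κ K L] [Algebra k L] [IsScalarTower k K L] (x : Fin (n + 1) → L), x ≠ 0 →
      ∀ (Θ Θ' : Submodule L (Fin (n + 1) → L)) (a b q h g D N : ℝ),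
      Θ = tangent (Set.range (algebraMap k L)) x → Θ' = tangent (coeffSet k L F) x →
      a = finrank L Θ → b = finrank L Θ' → q = vanCard F x → h = height κ x →
      g = subHeight κ Θ → D = ∑ i, d i →
      N = truncCount κ F d S x + ramDeg κ L K + C * finrank K L →
      b + q ≤ a + c ∧ ∀ m : ℕ, 1 ≤ m → (∀ i, m ≤ d i) →
        (∀ ν, 0 ≤ ν → SlopeLE κ m x ν → (D - a) * h + g ≤ N + (a - b - q + c) * ν) ∧
        ∀ r : ℕ, Algebra.trdeg k (pointField k x) ≤ r →
          (D + q - c - 2 * r - 1) * h ≤ N ∧
          ∀ T, 0 < T → T * (D - r - 1) * h ≤ T * N + (r - q + c) * h ∨ SmallSpace κ m x T :=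
  Pool.Agent.Lib.MP_44a246_ntJ.main_Jr (k₀ := k₀) ht d F hF hgen S hS

end Pool.Agent.Results.MP_44a246_nt.TangentInequality
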